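import Mathlib

namespace Pool.Agent.H74.PosetAlg

universe u

/-- The Boolean algebra `B`, with the map `x : P → B`, is the poset algebra `F(P)`: `x` is
order preserving, and every order preserving map from `P` into a Boolean algebra extends
uniquely along `x` to a homomorphism of Boolean algebras. -/
def IsPosetAlgebra (P B : Type u) [PartialOrder P] [BooleanAlgebra B] (x : P → B) : Prop :=
  Monotone x ∧ ∀ (A : Type u) [BooleanAlgebra A] (f : P → A), Monotone f →
    ∃! g : BoundedLatticeHom B A, ∀ p, g (x p) = f p

/-- Every quotient (homomorphic image) of `B` is atomic. -/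
def Superatomic (B : Type u) [BooleanAlgebra B] : Prop :=
  ∀ (A : Type u) [BooleanAlgebra A] (g : BoundedLatticeHom B A), Function.Surjective g →
    IsAtomic A

variable {B : Type u} [BooleanAlgebra B]

/-- The class of `a` is an atom of the quotient `B / I` (`I` an ideal). -/
def AtomMod (I : Set B) (a : B) : Prop :=
  a ∉ I ∧ ∀ c ≤ a, c ∈ I ∨ a \ c ∈ I

/-- The set of all `b` whose class lies in the ideal of `B / I` generated by the atoms
of `B / I`. -/
def nextIdeal (I : Set B) : Set B :=
  {b | ∃ F : Finset B, (∀ a ∈ F, AtomMod I a) ∧ b \ F.sup id ∈ I}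

/-- The Cantor-Bendixson ideals of `B`. -/
noncomputable def cbIdeal (B : Type u) [BooleanAlgebra B] (α : Ordinal.{u}) : Set B :=
  Ordinal.limitRecOn α {⊥} (fun _ I => nextIdeal I)
    (fun δ _ I => {b | ∃ β, ∃ h : β < δ, b ∈ I β h})

/-- `B` is canonically well-generated: there is a complete set `H = ⋃ α, H α` of
representatives of generalized atoms which generates the Boolean algebra `B` and generates
a well-founded sublattice of `B`. -/
def CanonicallyWellGenerated (B : Type u) [BooleanAlgebra B] : Prop :=
  ∃ H : Ordinal.{u} → Set B,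
    (∀ α, ∀ h ∈ H α, AtomMod (cbIdeal B α) h) ∧
    (∀ α a, AtomMod (cbIdeal B α) a → ∃! h, h ∈ H α ∧ symmDiff a h ∈ cbIdeal B α) ∧
    BooleanSubalgebra.closure (⋃ α, H α) = ⊤ ∧
    (latticeClosure (⋃ α, H α)).IsWF

end Pool.Agent.H74.PosetAlg
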