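import Pool.Agent.H74.PosetAlg.Defs

namespace Pool.Agent.H74.PosetAlg

open Order

universe u

/-- Stone embedding: every Boolean algebra is separated by homomorphisms to sets. -/
theorem stone (A : Type u) [BooleanAlgebra A] :
    ∃ φ : BoundedLatticeHom A (Set {Q : Order.Ideal A // Q.IsPrime}),
      Function.Injective φ ∧ ∀ a Q, Q ∈ φ a ↔ a ∉ Q.1 := by
  let φ : BoundedLatticeHom A (Set {Q : Order.Ideal A // Q.IsPrime}) :=
    { toFun := fun a => {Q | a ∉ Q.1}
      map_sup' := by
        intro a b
        ext Q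
        show a ⊔ b ∉ Q.1 ↔ (a ∉ Q.1 ∨ b ∉ Q.1)
        rw [Order.Ideal.sup_mem_iff]
        tauto
      map_inf' := by
        intro a b
        ext Q
        show a ⊓ b ∉ Q.1 ↔ (a ∉ Q.1 ∧ b ∉ Q.1)
        constructor
        · intro hh
          exact ⟨fun h1 => hh (Q.1.lower inf_le_left h1), fun h1 => hh (Q.1.lower inf_le_right h1)⟩
        · rintro ⟨h1, h2⟩ hh
          rcases Q.2.mem_or_mem hh with h3 | h3
          · exact h1 h3
          · exact h2 h3
      map_top' := by
        ext Q
        show (⊤ : A) ∉ Q.1 ↔ True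
        have := Q.2.toIsProper
        exact iff_true_intro this.top_notMem
      map_bot' := by
        ext Q
        show (⊥ : A) ∉ Q.1 ↔ False
        exact iff_false_intro fun hh => hh (Order.Ideal.bot_mem _) }
  refine ⟨φ, ?_, fun a Q => Iff.rfl⟩
  have hle : ∀ a b : A, φ a = φ b → a ≤ b := by
    intro a b hab
    by_contra hcon
    have hdisj : Disjoint ((Order.PFilter.principal a : Order.PFilter A) : Set A)
        (Order.Ideal.principal b : Set A) := by
      rw [Set.disjoint_left]
      intro c hc hcI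
      have hac : a ≤ c := hc
      have hcb : c ≤ b := hcI
      exact hcon (hac.trans hcb)
    obtain ⟨Q, hQ, hIQ, hQdis⟩ := DistribLattice.prime_ideal_of_disjoint_filter_ideal hdisj
    have h1 : a ∉ Q := by
      intro hh
      rw [Set.disjoint_left] at hQdis
      exact hQdis (show a ∈ ((Order.PFilter.principal a : Order.PFilter A) : Set A) from le_refl a) hh
    have h2 : b ∈ Q := hIQ (show b ≤ b from le_rfl)
    have h3 : (⟨Q, hQ⟩ : {Q : Order.Ideal A // Q.IsPrime}) ∈ φ a := h1
    rw [hab] at h3
    exact h3 h2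
  intro a b hab
  exact le_antisymm (hle a b hab) (hle b a hab.symm)

/-- Poset algebras exist. -/
theorem exists_isPosetAlgebra (P : Type u) [PartialOrder P] :
    ∃ (B : Type u) (_ : BooleanAlgebra B) (x : P → B), IsPosetAlgebra P B x := by
  let X : P → Set (LowerSet P) := fun p => {J | p ∉ J}
  let S := BooleanSubalgebra.closure (Set.range X)
  let x : P → S := fun p => ⟨X p, BooleanSubalgebra.subset_closure ⟨p, rfl⟩⟩
  have hx : Monotone x := by
    intro p q hpq J hJ hq
    exact hJ (J.lower hpq hq)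
  refine ⟨S, inferInstance, x, hx, ?_⟩
  intro A _ f hf
  obtain ⟨φ, hφ, hφm⟩ := stone A
  let lo : {Q : Order.Ideal A // Q.IsPrime} → LowerSet P := fun Q =>
    ⟨{p | f p ∈ Q.1}, fun p q hqp hp => Q.1.lower (hf hqp) hp⟩
  have key : ∀ b ∈ S, ∃ a : A, φ a = lo ⁻¹' b := by
    intro b hb
    induction hb using BooleanSubalgebra.closure_bot_sup_induction with
    | mem b hb =>
      obtain ⟨p, rfl⟩ := hb
      refine ⟨f p, ?_⟩
      ext Q
      rw [hφm]
      exact Iff.rfl
    | bot => exact ⟨⊥, by rw [map_bot]; rfl⟩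
    | sup a _ b _ iha ihb =>
      obtain ⟨c, hc⟩ := iha
      obtain ⟨d, hd⟩ := ihb
      exact ⟨c ⊔ d, by rw [map_sup, hc, hd]; rfl⟩
    | compl a _ iha =>
      obtain ⟨c, hc⟩ := iha
      refine ⟨cᶜ, ?_⟩
      have h1 : φ cᶜ = (φ c)ᶜ := map_compl' φ c
      rw [h1, hc]
      rfl
  choose g0 hg0 using key
  let g : BoundedLatticeHom S A :=
    { toFun := fun b => g0 b.1 b.2
      map_sup' := by
        intro a b
        apply hφ
        rw [map_sup, hg0, hg0, hg0]
        rfl
      map_inf' := by
        intro a b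
        apply hφ
        rw [map_inf, hg0, hg0, hg0]
        rfl
      map_top' := by
        apply hφ
        rw [map_top, hg0]
        rfl
      map_bot' := by
        apply hφ
        rw [map_bot, hg0]
        rfl }
  refine ⟨g, ?_, ?_⟩
  · intro p
    apply hφ
    show φ (g0 (X p) _) = _
    rw [hg0]
    ext Q
    rw [hφm]
    exact Iff.rfl
  · intro g' hg'
    have huniq : ∀ b (hb : b ∈ S), g' ⟨b, hb⟩ = g ⟨b, hb⟩ := by
      intro b hb
      have hgx : ∀ p, g (x p) = f p := by
        intro p
        apply hφ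
        show φ (g0 (X p) _) = _
        rw [hg0]
        ext Q
        rw [hφm]
        exact Iff.rfl
      induction hb using BooleanSubalgebra.closure_bot_sup_induction with
      | mem b hb =>
        obtain ⟨p, rfl⟩ := hb
        exact (hg' p).trans (hgx p).symm
      | bot =>
        have h1 : (⟨⊥, BooleanSubalgebra.bot_mem⟩ : S) = ⊥ := rfl
        rw [h1, map_bot, map_bot]
      | sup a ha b hb iha ihb =>
        have h1 : (⟨a ⊔ b, BooleanSubalgebra.sup_mem ha hb⟩ : S) = ⟨a, ha⟩ ⊔ ⟨b, hb⟩ := rfl
        rw [h1, map_sup, map_sup, iha, ihb]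
      | compl a ha iha =>
        have h1 : (⟨aᶜ, BooleanSubalgebra.compl_mem ha⟩ : S) = (⟨a, ha⟩ : S)ᶜ := rfl
        rw [h1, map_compl' g', map_compl' g, iha]
    apply DFunLike.ext
    rintro ⟨b, hb⟩
    exact huniq b hb

end Pool.Agent.H74.PosetAlg
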