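import Pool.Agent.H74.PosetAlg.Rank

namespace Pool.Agent.H74.PosetAlg

open Order Filter

universe u

section final

variable {P B : Type u} [PartialOrder P] [BooleanAlgebra B] {x : P → B}
  {s : LowerSet P → B → Prop}

/-- the data attached to a poset algebra -/
noncomputable def dat (s : LowerSet P → B → Prop) : Dat.{u, u, u, u} P (LowerSet P) where
  mem := fun p J => p ∈ J
  rho := rk s
  e := fun p => Ordinal.typein (WellOrderingRel (α := P)) p

/-- basic elements -/
def bas (x : P → B) (F G : Finset P) : B := G.inf x ⊓ F.inf (fun p => (x p)ᶜ)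

theorem s_bas (hs : Pts x s) (J : LowerSet P) (F G : Finset P) :
    s J (bas x F G) ↔ (∀ p ∈ F, p ∈ J) ∧ ∀ p ∈ G, p ∉ J := by
  classical
  have htop : s J ⊤ := by
    rw [← compl_bot, hs.compl]
    exact hs.bot J
  have h1 : ∀ (T : Finset P) (f : P → B), s J (T.inf f) ↔ ∀ p ∈ T, s J (f p) := by
    intro T f
    induction T using Finset.induction_on with
    | empty => simpa using htop
    | insert a t _ ih =>
      rw [Finset.inf_insert, hs.inf, ih]
      simp
  unfold bas
  rw [hs.inf, h1, h1]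
  constructor
  · rintro ⟨h2, h3⟩
    refine ⟨fun p hp => ?_, fun p hp => (hs.gen J p).1 (h2 p hp)⟩
    have := h3 p hp
    rw [hs.compl, hs.gen] at this
    exact not_not.1 this
  · rintro ⟨h2, h3⟩
    refine ⟨fun p hp => (hs.gen J p).2 (h3 p hp), fun p hp => ?_⟩
    rw [hs.compl, hs.gen]
    exact not_not.2 (h2 p hp)

theorem dat_good (hs : Pts x s) (hex : ∀ b : B, ∃ α : Ordinal.{u}, b ∈ cbIdeal B α) :
    (dat s).Good := by
  classical
  refine good_of (dat s) (fun I J => Iff.rfl) (fun p I J => LowerSet.mem_sup_iff)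
    (fun p I J => LowerSet.mem_inf_iff) (fun U => lowerSet_lim U) ?_ ?_ ?_
  · intro I
    obtain ⟨a, hIa, ha⟩ := exists_peak hs hex I
    obtain ⟨F, hF⟩ := hs.local' a
    refine ⟨F, fun J hJ hne => ha J ?_ hne⟩
    exact (hF J I hJ).2 hIa
  · intro I γ hγ F
    have h1 : s I (bas x (F.filter (· ∈ I)) (F.filter (· ∉ I))) := by
      rw [s_bas hs]
      refine ⟨fun p hp => (Finset.mem_filter.1 hp).2, fun p hp => (Finset.mem_filter.1 hp).2⟩
    obtain ⟨K, hK, hne, hr⟩ := exists_limit hs hex I hγ h1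
    refine ⟨K, fun p hp => ?_, hne, hr⟩
    rw [s_bas hs] at hK
    constructor
    · intro hpK
      by_contra hpI
      exact hK.2 p (Finset.mem_filter.2 ⟨hp, hpI⟩) hpK
    · intro hpI
      exact hK.1 p (Finset.mem_filter.2 ⟨hp, hpI⟩)
  · exact Ordinal.typein_injective _

theorem cwg (hs : Pts x s) (hex : ∀ b : B, ∃ α : Ordinal.{u}, b ∈ cbIdeal B α) :
    CanonicallyWellGenerated B := by
  classical
  obtain ⟨F, G, hself, hcan, htra⟩ := tca (dat s) rfl (dat_good hs hex)
  let u : LowerSet P → B := fun I => bas x (F I) (G I)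
  have hu : ∀ I J, s J (u I) ↔ (∀ p ∈ F I, p ∈ J) ∧ ∀ p ∈ G I, p ∉ J := fun I J => s_bas hs J _ _
  have ua : ∀ I, s I (u I) := fun I => (hu I I).2 (hself I)
  have ub : ∀ I J, s J (u I) → J ≠ I → rk s J < rk s I := by
    intro I J hJ hne
    rw [hu] at hJ
    exact hcan I J hJ.1 hJ.2 hne
  have uc : ∀ I J L, s J (u I) → s L (u J) → s L (u I) := by
    intro I J L hJ hL
    rw [hu] at hJ hL ⊢
    exact htra I J L hJ.1 hJ.2 hL.1 hL.2
  have htop : ∀ J, s J ⊤ := fun J => by
    rw [← compl_bot, hs.compl]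
    exact hs.bot J
  have hle : ∀ a b : B, (∀ J, s J a → s J b) → a ≤ b := by
    intro a b hab
    by_contra hcon
    have h1 : a \ b ∉ ({⊥} : Set B) := by
      intro hh
      exact hcon (sdiff_eq_bot_iff.1 hh)
    have h0 : IsId ({⊥} : Set B) := by
      have := cb_isId (B := B) 0
      rwa [cb_zero] at this
    obtain ⟨J, hJ, -⟩ := hs.sep h0 h1
    rw [hs.sdiff] at hJ
    exact hJ.2 (hab J hJ.1)
  have hAt : ∀ I, AtomMod (cbIdeal B (rk s I)) (u I) := by
    intro I
    refine ⟨fun hh => lt_irrefl _ (rk_lt hs hh (ua I)), fun c hc => ?_⟩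
    by_cases hIc : s I c
    · right
      refine mem_of_rk_lt hs hex fun K hK => ?_
      rw [hs.sdiff] at hK
      exact ub I K hK.1 fun hh => hK.2 (by rw [hh]; exact hIc)
    · left
      refine mem_of_rk_lt hs hex fun K hK => ?_
      exact ub I K (hs.mono hc hK) fun hh => hIc (by rw [← hh]; exact hK)
  refine ⟨fun α => {h | ∃ I, rk s I = α ∧ h = u I}, ?_, ?_, ?_, ?_⟩
  · rintro α h ⟨I, rfl, rfl⟩
    exact hAt I
  · intro α a ha
    have h1 : ∃ J, s J a ∧ α ≤ rk s J := by
      by_contra hcon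
      push Not at hcon
      exact ha.1 (mem_of_rk_lt hs hex hcon)
    obtain ⟨J, hJ, hJα⟩ := h1
    have h2 : rk s J = α := by
      refine le_antisymm ?_ hJα
      exact rk_le (mem_succ_of_atomMod (Or.inr ha)) hJ
    have h3 : ∀ K, s K a → α ≤ rk s K → K = J := by
      intro K hK hKα
      by_contra hne
      obtain ⟨c, hc1, hc2⟩ := exists_sep hs hne
      rcases ha.2 (a ⊓ c) inf_le_left with h4 | h4
      · have := rk_lt hs h4 ((hs.inf J a c).2 ⟨hJ, hc1⟩)
        exact absurd this (not_lt.2 hJα)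
      · have h5 : s K (a \ (a ⊓ c)) := by
          rw [hs.sdiff, hs.inf]
          tauto
        exact absurd (rk_lt hs h4 h5) (not_lt.2 hKα)
    have hsd : ∀ K b, s K (symmDiff a b) ↔ (s K a ∧ ¬ s K b) ∨ (s K b ∧ ¬ s K a) := by
      intro K b
      rw [symmDiff, hs.sup, hs.sdiff, hs.sdiff]
    refine ⟨u J, ⟨⟨J, h2, rfl⟩, ?_⟩, ?_⟩
    · refine mem_of_rk_lt hs hex fun K hK => ?_
      rw [hsd] at hK
      have hne : K ≠ J := by
        rintro rfl
        have := ua K
        tauto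
      rcases hK with ⟨hK1, hK2⟩ | ⟨hK1, hK2⟩
      · by_contra hcon
        exact hne (h3 K hK1 (not_lt.1 hcon))
      · rw [← h2]
        exact ub J K hK1 hne
    · rintro h ⟨⟨J', h4, rfl⟩, h5⟩
      by_cases h6 : s J' a
      · rw [h3 J' h6 h4.ge]
      · have h7 : s J' (symmDiff a (u J')) := by
          rw [hsd]
          exact Or.inr ⟨ua J', h6⟩
        exact absurd (rk_lt hs h5 h7) (by rw [h4]; exact lt_irrefl _)
  · set S := BooleanSubalgebra.closure (⋃ α, {h | ∃ I, rk s I = α ∧ h = u I}) with hS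
    have huS : ∀ I, u I ∈ S := fun I =>
      BooleanSubalgebra.subset_closure (Set.mem_iUnion.2 ⟨rk s I, I, rfl, rfl⟩)
    have hsepS : ∀ J K : LowerSet P, J ≠ K → ∃ c ∈ S, s J c ∧ ¬ s K c := by
      intro J K hne
      by_cases h1 : s K (u J)
      · refine ⟨(u K)ᶜ, BooleanSubalgebra.compl_mem (huS K), ?_, ?_⟩
        · rw [hs.compl]
          intro h2
          exact absurd (ub J K h1 hne.symm) (not_lt.2 (ub K J h2 hne).le)
        · rw [hs.compl]
          exact not_not.2 (ua K)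
      · exact ⟨u J, huS J, ua J, h1⟩
    have hbelow : ∀ (b : B) (J : LowerSet P), s J b → ∃ c ∈ S, s J c ∧ c ≤ b := by
      intro b J hJ
      let I1 : Set B := {d | ∃ c ∈ S, s J c ∧ c ⊓ d ≤ b}
      have hI1 : IsId I1 := by
        refine ⟨⟨⊤, BooleanSubalgebra.top_mem, htop J, by simp⟩, ?_, ?_⟩
        · rintro d d' hd ⟨c, hc, hJc, h1⟩
          exact ⟨c, hc, hJc, (inf_le_inf_left c hd).trans h1⟩
        · rintro d d' ⟨c, hc, hJc, h1⟩ ⟨c', hc', hJc', h1'⟩
          refine ⟨c ⊓ c', BooleanSubalgebra.inf_mem hc hc', (hs.inf _ _ _).2 ⟨hJc, hJc'⟩, ?_⟩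
          rw [inf_sup_left]
          refine sup_le ((inf_le_inf_right d inf_le_left).trans h1)
            ((inf_le_inf_right d' inf_le_right).trans h1')
      by_cases h2 : (⊤ : B) ∈ I1
      · obtain ⟨c, hc, hJc, h3⟩ := h2
        exact ⟨c, hc, hJc, by simpa using h3⟩
      · obtain ⟨K, -, hK⟩ := hs.sep hI1 h2
        have h3 : ¬ s K b := hK b ⟨⊤, BooleanSubalgebra.top_mem, htop J, by simp⟩
        have hne : J ≠ K := by
          rintro rfl
          exact h3 hJ
        obtain ⟨c, hc, hJc, hKc⟩ := hsepS J K hne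
        have h4 : ¬ s K cᶜ := hK cᶜ ⟨c, hc, hJc, by simp⟩
        rw [hs.compl] at h4
        exact absurd hKc h4
    rw [eq_top_iff]
    intro b _
    let I2 : Set B := {d | ∃ c ∈ S, c ≤ b ∧ d ≤ c}
    have hI2 : IsId I2 := by
      refine ⟨⟨⊥, BooleanSubalgebra.bot_mem, bot_le, le_rfl⟩, ?_, ?_⟩
      · rintro d d' hd ⟨c, hc, h1, h2⟩
        exact ⟨c, hc, h1, hd.trans h2⟩
      · rintro d d' ⟨c, hc, h1, h2⟩ ⟨c', hc', h1', h2'⟩
        exact ⟨c ⊔ c', BooleanSubalgebra.sup_mem hc hc', sup_le h1 h1', sup_le_sup h2 h2'⟩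
    by_cases h1 : b ∈ I2
    · obtain ⟨c, hc, h2, h3⟩ := h1
      rw [le_antisymm h3 h2]
      exact hc
    · obtain ⟨J, hJ, hJ2⟩ := hs.sep hI2 h1
      obtain ⟨c, hc, hJc, hcb⟩ := hbelow b J hJ
      exact absurd hJc (hJ2 c ⟨c, hc, hcb, le_rfl⟩)
  · let T : Sublattice B :=
      { carrier := {b | ∀ J, s J b → ∀ L, s L (u J) → s L b}
        supClosed' := by
          intro a ha b hb J hJ L hL
          rw [hs.sup] at hJ ⊢
          rcases hJ with hJ | hJ
          · exact Or.inl (ha J hJ L hL)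
          · exact Or.inr (hb J hJ L hL)
        infClosed' := by
          intro a ha b hb J hJ L hL
          rw [hs.inf] at hJ ⊢
          exact ⟨ha J hJ.1 L hL, hb J hJ.2 L hL⟩ }
    have hsub : latticeClosure (⋃ α, {h | ∃ I, rk s I = α ∧ h = u I}) ⊆ (T : Set B) := by
      refine latticeClosure_min ?_ T.isSublattice
      intro h hh
      obtain ⟨α, I, -, rfl⟩ := Set.mem_iUnion.1 hh
      exact fun J hJ L hL => uc I J L hJ hL
    have hT : ∀ f : ℕ → B, StrictAnti f → ¬ ∀ n, f n ∈ T := by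
      intro f hf hfT
      let I3 : Set B := {d | ∃ n, ∃ e, (∀ m, e ≤ f m) ∧ f n ⊓ d ≤ e}
      have hI3 : IsId I3 := by
        refine ⟨⟨0, ⊥, fun m => bot_le, by simp⟩, ?_, ?_⟩
        · rintro d d' hd ⟨n, e, h1, h2⟩
          exact ⟨n, e, h1, (inf_le_inf_left _ hd).trans h2⟩
        · rintro d d' ⟨n, e, h1, h2⟩ ⟨n', e', h1', h2'⟩
          refine ⟨max n n', e ⊔ e', fun m => sup_le (h1 m) (h1' m), ?_⟩
          rw [inf_sup_left]
          exact sup_le_sup ((inf_le_inf_right d (hf.antitone (le_max_left n n'))).trans h2)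
            ((inf_le_inf_right d' (hf.antitone (le_max_right n n'))).trans h2')
      by_cases h1 : (⊤ : B) ∈ I3
      · obtain ⟨n, e, h2, h3⟩ := h1
        rw [inf_top_eq] at h3
        exact absurd (hf (Nat.lt_succ_self n)) (not_lt_of_ge (h3.trans (h2 (n + 1))))
      · obtain ⟨K, -, hK⟩ := hs.sep hI3 h1
        have h2 : ∀ n, s K (f n) := by
          intro n
          have h3 : ¬ s K (f n)ᶜ := hK _ ⟨n, ⊥, fun m => bot_le, by simp⟩
          rw [hs.compl] at h3
          exact not_not.1 h3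
        have h3 : ∀ m, u K ≤ f m := fun m => hle _ _ fun L hL => hfT m K (h2 m) L hL
        exact hK (u K) ⟨0, u K, h3, inf_le_right⟩ (ua K)
    rw [Set.isWF_iff_no_descending_seq]
    intro f hf hfm
    exact hT f hf fun n => hsub (hfm n)

end final

theorem main {P B : Type u} [PartialOrder P] [BooleanAlgebra B] (x : P → B)
    (h : IsPosetAlgebra P B x) (hS : Superatomic B) : CanonicallyWellGenerated B := by
  obtain ⟨s, hs⟩ := exists_pts h
  exact cwg hs (hs.exhaust hS)

end Pool.Agent.H74.PosetAlg
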