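import Pool.Agent.H74.PosetAlg.Super

namespace Pool.Agent.H74.PosetAlg

open Filter OrderDual

universe u v w z

section fg

variable {P : Type u} [PartialOrder P]

theorem fg_of (S : Set P) (hanti : ∀ a : ℕ → P, (∀ m n, m ≠ n → ¬ a m ≤ a n) → False)
    (hinc : ∀ b : ℕ → P, (∀ m n, m < n → b m ≤ b n ∧ b m ≠ b n) → (∀ n, b n ∈ S) → False) :
    ∃ F : Finset P, (∀ p ∈ F, p ∈ S) ∧ ∀ p ∈ S, ∃ q ∈ F, p ≤ q := by
  let T : Set P := {p | p ∈ S ∧ ∀ q ∈ S, p ≤ q → q = p}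
  have hT : T.Finite := by
    by_contra hinf
    let f := Set.Infinite.natEmbedding T hinf
    refine hanti (fun n => (f n).1) fun m n hmn hle => ?_
    have := (f m).2.2 _ (f n).2.1 hle
    exact hmn (f.injective (Subtype.ext this.symm))
  have hbelow : ∀ p ∈ S, ∃ q ∈ T, p ≤ q := by
    by_contra hcon
    push Not at hcon
    obtain ⟨p0, hp0, hp0'⟩ := hcon
    let S' : Set P := {p | p ∈ S ∧ ∀ q ∈ T, ¬ p ≤ q}
    have hstep : ∀ p : S', ∃ q : S', p.1 < q.1 := by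
      rintro ⟨p, hp, hp'⟩
      have : p ∉ T := fun hh => hp' p hh le_rfl
      have h2 : ∃ q ∈ S, p ≤ q ∧ q ≠ p := by
        by_contra hh
        push Not at hh
        exact this ⟨hp, hh⟩
      obtain ⟨q, hq, hpq, hne⟩ := h2
      exact ⟨⟨q, hq, fun r hr hqr => hp' r hr (hpq.trans hqr)⟩, lt_of_le_of_ne hpq hne.symm⟩
    choose g hg using hstep
    let b : ℕ → S' := fun n => g^[n] ⟨p0, hp0, hp0'⟩
    have hb : StrictMono fun n => (b n).1 := by
      refine strictMono_nat_of_lt_succ fun n => ?_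
      have : b (n + 1) = g (b n) := Function.iterate_succ_apply' g n _
      rw [this]
      exact hg _
    exact hinc (fun n => (b n).1) (fun m n hmn => ⟨(hb hmn).le, (hb hmn).ne⟩) fun n => (b n).2.1
  refine ⟨hT.toFinset, fun p hp => ?_, fun p hp => ?_⟩
  · rw [Set.Finite.mem_toFinset] at hp
    exact hp.1
  · obtain ⟨q, hq, hpq⟩ := hbelow p hp
    exact ⟨q, by rw [Set.Finite.mem_toFinset]; exact hq, hpq⟩

end fg

section lower

variable {P : Type u} [PartialOrder P]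

/-- ultralimits of lower sets -/
theorem lowerSet_lim (U : Ultrafilter (LowerSet P)) :
    ∃ L : LowerSet P, ∀ p, p ∈ L ↔ ∀ᶠ x in (U : Filter (LowerSet P)), p ∈ x := by
  refine ⟨⟨{p | ∀ᶠ x in (U : Filter (LowerSet P)), p ∈ x}, ?_⟩, fun p => Iff.rfl⟩
  intro a b hba ha
  exact Filter.Eventually.mono ha fun x hx => x.lower hba hx

/-- rank of a lower set gives a narrow poset -/
theorem narrow (D : Dat.{u, u, w, z} P (LowerSet P)) (hmem : D.mem = fun p J => p ∈ J)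
    (h : D.Good) (a : ℕ → P) (ha : ∀ m n, m ≠ n → ¬ a m ≤ a n) : False := by
  have hmem' : ∀ p J, D.mem p J ↔ p ∈ J := fun p J => by rw [hmem]
  let X : Set ℕ → Set (LowerSet P) := fun Z => {J | ∀ i, a i ∈ J ↔ i ∈ Z}
  have hne : ∀ Z, (X Z).Nonempty := by
    intro Z
    refine ⟨lowerClosure (a '' Z), fun i => ?_⟩
    rw [mem_lowerClosure]
    constructor
    · rintro ⟨_, ⟨j, hj, rfl⟩, hij⟩
      by_cases hh : i = j
      · rw [hh]; exact hj
      · exact absurd hij (ha i j hh)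
    · intro hi
      exact ⟨a i, ⟨i, hi, rfl⟩, le_rfl⟩
  have hcl : ∀ Z, ∀ U : Ultrafilter (LowerSet P), X Z ∈ U → ∀ L,
      (∀ p, D.mem p L ↔ ∀ᶠ x in (U : Filter (LowerSet P)), D.mem p x) → L ∈ X Z := by
    intro Z U hU L hL i
    have hU' : ∀ᶠ x in (U : Filter (LowerSet P)), x ∈ X Z := hU
    rw [← hmem', hL]
    constructor
    · intro hh
      obtain ⟨x, hx1, hx2⟩ := (hh.and hU').exists
      exact (hx2 i).1 ((hmem' _ _).1 hx1)
    · intro hi
      filter_upwards [hU'] with x hx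
      exact (hmem' _ _).2 ((hx i).2 hi)
  have hmax : ∀ Z, ∃ M ∈ X Z, ∀ K ∈ X Z, D.rho K ≤ D.rho M := fun Z => h.exists_max (hne Z) (hcl Z)
  choose M hM hMmax using hmax
  obtain ⟨α, ⟨Z, rfl⟩, hmin⟩ : ∃ α ∈ Set.range fun Z => D.rho (M Z), ∀ β ∈ Set.range fun Z => D.rho (M Z),
      α ≤ β := by
    refine ⟨sInf (Set.range fun Z => D.rho (M Z)), csInf_mem ⟨_, ∅, rfl⟩, fun β hβ => csInf_le' hβ⟩
  let Zn : ℕ → Set ℕ := fun n => {i | (i ∈ Z ∧ i ≠ n) ∨ (i = n ∧ n ∉ Z)}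
  let J : ℕ → LowerSet P := fun n => M (Zn n)
  let U : Ultrafilter ℕ := Filter.hyperfilter ℕ
  obtain ⟨L, hL⟩ := h.lim' U J
  have hcof : ∀ m : ℕ, ∀ᶠ n in (U : Filter ℕ), m < n := by
    intro m
    have : (U : Filter ℕ) ≤ Filter.atTop := by
      have := Filter.hyperfilter_le_cofinite (α := ℕ)
      rw [Nat.cofinite_eq_atTop] at this
      exact this
    exact this (Filter.eventually_gt_atTop m)
  have hJn : ∀ i n, i < n → (a i ∈ J n ↔ i ∈ Z) := by
    intro i n hin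
    have h1 := hM (Zn n) i
    rw [show J n = M (Zn n) from rfl, h1]
    constructor
    · rintro (⟨h2, -⟩ | ⟨h2, -⟩)
      · exact h2
      · omega
    · intro h2
      exact Or.inl ⟨h2, by omega⟩
  have hLX : L ∈ X Z := by
    intro i
    rw [← hmem', hL]
    constructor
    · intro hh
      obtain ⟨n, hn1, hn2⟩ := (hh.and (hcof i)).exists
      rw [hmem'] at hn1
      exact (hJn i n hn2).1 hn1
    · intro hi
      filter_upwards [hcof i] with n hn
      rw [hmem']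
      exact (hJn i n hn).2 hi
  obtain ⟨F, hF⟩ := h.peak L
  obtain ⟨n, hn⟩ := (h.agree U J L hL F).exists
  have hne' : J n ≠ L := by
    intro hh
    have h1 := hM (Zn n) n
    have h2 := hLX n
    rw [← hh] at h2
    rw [show J n = M (Zn n) from rfl] at h2
    rw [h1] at h2
    by_cases hnZ : n ∈ Z
    · rcases h2.2 hnZ with ⟨_, h4⟩ | ⟨_, h4⟩
      · exact h4 rfl
      · exact h4 hnZ
    · exact hnZ (h2.1 (Or.inr ⟨rfl, hnZ⟩))
  have h1 := hF (J n) hn hne'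
  have h2 := hMmax Z L hLX
  have h3 := hmin _ ⟨Zn n, rfl⟩
  exact absurd (lt_of_lt_of_le h1 h2) (not_lt.2 h3)

/-- transitive canonical assignment of clopen neighbourhoods -/
theorem tca (D : Dat.{u, u, w, z} P (LowerSet P)) (hmem : D.mem = fun p J => p ∈ J)
    (h : D.Good) : ∃ F G : LowerSet P → Finset P,
      (∀ I, (∀ p ∈ F I, p ∈ I) ∧ ∀ p ∈ G I, p ∉ I) ∧
      (∀ I J : LowerSet P, (∀ p ∈ F I, p ∈ J) → (∀ p ∈ G I, p ∉ J) → J ≠ I → D.rho J < D.rho I) ∧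
      (∀ I J L : LowerSet P, (∀ p ∈ F I, p ∈ J) → (∀ p ∈ G I, p ∉ J) → (∀ p ∈ F J, p ∈ L) →
        (∀ p ∈ G J, p ∉ L) → (∀ p ∈ F I, p ∈ L) ∧ ∀ p ∈ G I, p ∉ L) := by
  have hmem' : ∀ p J, D.mem p J ↔ p ∈ J := fun p J => by rw [hmem]
  have hnar : ∀ a : ℕ → P, (∀ m n, m ≠ n → ¬ a m ≤ a n) → False := narrow D hmem h
  have hF : ∀ I : LowerSet P, ∃ F : Finset P, (∀ p ∈ F, p ∈ Bm D I) ∧ ∀ p ∈ Bm D I, ∃ q ∈ F, p ≤ q := by
    intro I
    refine fg_of (Bm D I) hnar fun b hb hbS => ?_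
    refine no_incr h (J := I) (fun p q => p ≤ q) (fun p q x hpq hq => ?_) b hb hbS
    rw [hmem'] at hq ⊢
    exact x.lower hpq hq
  have hG : ∀ I : LowerSet P, ∃ F : Finset P, (∀ p ∈ F, p ∈ Bp D I) ∧ ∀ p ∈ Bp D I, ∃ q ∈ F, q ≤ p := by
    intro I
    obtain ⟨F, hF1, hF2⟩ := fg_of (P := Pᵒᵈ) (ofDual ⁻¹' (Bp D I))
      (fun a ha => hnar (fun n => ofDual (a n)) fun m n hmn hle => ha n m hmn.symm hle)
      (fun b hb hbS => by
        refine no_incr' h (J := I) (fun p q => q ≤ p) (fun p q x hpq hq => ?_)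
          (fun n => ofDual (b n)) (fun m n hmn => hb m n hmn) hbS
        rw [hmem'] at hq ⊢
        exact x.lower hpq hq)
    exact ⟨F, hF1, hF2⟩
  choose F hF1 hF2 using hF
  choose G hG1 hG2 using hG
  have eF : ∀ I J : LowerSet P, (∀ p ∈ F I, p ∈ J) ↔ ∀ p ∈ Bm D I, D.mem p J := by
    intro I J
    constructor
    · intro hh p hp
      obtain ⟨q, hq, hpq⟩ := hF2 I p hp
      rw [hmem']
      exact J.lower hpq (hh q hq)
    · intro hh p hp
      rw [← hmem']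
      exact hh p (hF1 I p hp)
  have eG : ∀ I J : LowerSet P, (∀ p ∈ G I, p ∉ J) ↔ ∀ p ∈ Bp D I, ¬ D.mem p J := by
    intro I J
    constructor
    · intro hh p hp
      obtain ⟨q, hq, hpq⟩ := hG2 I p hp
      rw [hmem']
      exact fun hpJ => hh q hq (J.lower hpq hpJ)
    · intro hh p hp
      rw [← hmem']
      exact hh p (hG1 I p hp)
  refine ⟨F, G, fun I => ⟨?_, ?_⟩, fun I J h1 h2 hne => ?_, fun I J L h1 h2 h3 h4 => ⟨?_, ?_⟩⟩
  · rw [eF]
    rintro p ⟨K, hK, M, _, hp⟩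
    exact h.mono hK.1 hp.1
  · rw [eG]
    rintro p ⟨K, hK, M, _, hp⟩
    exact fun hh => hp.2.1 (h.mono hK.1 hh)
  · rw [eF] at h1
    rw [eG] at h2
    exact canonical h h1 h2 hne
  · rw [eF] at h1 h3 ⊢
    rw [eG] at h2
    exact trans_half h h1 h2 h3
  · rw [eF] at h1
    rw [eG] at h2 h4 ⊢
    exact trans_half' h h1 h2 h4

end lower

end Pool.Agent.H74.PosetAlg
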