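import Pool.Agent.H74.PosetAlg.Defs
import Pool.Agent.H74.PosetAlg.Tree

namespace Pool.Agent.H74.PosetAlg

open Order

universe u

section ideals

variable {B : Type u} [BooleanAlgebra B]

structure IsId (I : Set B) : Prop where
  bot : ⊥ ∈ I
  down : ∀ a b, a ≤ b → b ∈ I → a ∈ I
  sup : ∀ a b, a ∈ I → b ∈ I → a ⊔ b ∈ I

theorem IsId.finset_sup {I : Set B} (h : IsId I) (F : Finset B) (hF : ∀ a ∈ F, a ∈ I) :
    F.sup id ∈ I := by
  classical
  induction F using Finset.induction_on with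
  | empty => simpa using h.bot
  | insert a s _ ih =>
    rw [Finset.sup_insert]
    exact h.sup _ _ (hF a (Finset.mem_insert_self a s))
      (ih fun b hb => hF b (Finset.mem_insert_of_mem hb))

theorem cb_zero : cbIdeal B 0 = {⊥} := by
  unfold cbIdeal
  exact Ordinal.limitRecOn_zero _ _ _

theorem cb_succ (α : Ordinal.{u}) : cbIdeal B (α + 1) = nextIdeal (cbIdeal B α) := by
  unfold cbIdeal
  exact Ordinal.limitRecOn_add_one _ _ _ _

theorem cb_limit {δ : Ordinal.{u}} (hδ : IsSuccLimit δ) (b : B) :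
    b ∈ cbIdeal B δ ↔ ∃ β < δ, b ∈ cbIdeal B β := by
  unfold cbIdeal
  rw [Ordinal.limitRecOn_limit _ _ _ _ hδ]
  constructor
  · rintro ⟨β, h, hb⟩
    exact ⟨β, h, hb⟩
  · rintro ⟨β, h, hb⟩
    exact ⟨β, h, hb⟩

theorem next_isId {I : Set B} (hI : IsId I) : I ⊆ nextIdeal I ∧ IsId (nextIdeal I) := by
  classical
  refine ⟨fun b hb => ⟨∅, by simp, by simpa using hb⟩, ⟨?_, ?_, ?_⟩⟩
  · exact ⟨∅, by simp, by simpa using hI.bot⟩
  · rintro a b hab ⟨F, hF, hb⟩
    exact ⟨F, hF, hI.down _ _ (sdiff_le_sdiff_right hab) hb⟩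
  · rintro a b ⟨F, hF, ha⟩ ⟨G, hG, hb⟩
    refine ⟨F ∪ G, ?_, ?_⟩
    · intro c hc
      rcases Finset.mem_union.1 hc with hc | hc
      · exact hF c hc
      · exact hG c hc
    · rw [Finset.sup_union]
      refine hI.down _ _ ?_ (hI.sup _ _ ha hb)
      rw [sup_sdiff]
      exact sup_le_sup (sdiff_le_sdiff_left le_sup_left) (sdiff_le_sdiff_left le_sup_right)

theorem cb_all (α : Ordinal.{u}) :
    (∀ β < α, cbIdeal B β ⊆ cbIdeal B α) ∧ IsId (cbIdeal B α) ∧
      ∀ b ∈ cbIdeal B α, b ≠ ⊥ → ∃ β < α, b ∈ cbIdeal B (β + 1) := by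
  induction α using WellFoundedLT.induction with
  | ind α ih =>
    rcases Ordinal.zero_or_succ_or_isSuccLimit α with rfl | ⟨β, rfl⟩ | hlim
    · rw [cb_zero]
      refine ⟨fun β hβ => absurd hβ (not_lt.2 (zero_le)), ⟨rfl, ?_, ?_⟩, ?_⟩
      · rintro a b hab rfl
        exact le_bot_iff.1 hab
      · rintro a b rfl rfl
        simp
      · intro b hb hne
        exact absurd hb hne
    · have hβ : β < succ β := Order.lt_succ β
      have e : succ β = β + 1 := rfl
      obtain ⟨h1, h2, h3⟩ := ih β hβ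
      obtain ⟨h4, h5⟩ := next_isId h2
      rw [e, cb_succ]
      refine ⟨fun γ hγ => ?_, h5, fun b hb _ => ⟨β, hβ, by rw [cb_succ]; exact hb⟩⟩
      rcases eq_or_lt_of_le (Order.lt_succ_iff.1 (show γ < succ β from hγ)) with rfl | hlt
      · exact h4
      · exact (h1 γ hlt).trans h4
    · have hmono : ∀ β < α, cbIdeal B β ⊆ cbIdeal B α := fun β hβ b hb =>
        (cb_limit hlim b).2 ⟨β, hβ, hb⟩
      refine ⟨hmono, ⟨?_, ?_, ?_⟩, ?_⟩
      · exact (cb_limit hlim _).2 ⟨0, hlim.bot_lt, by rw [cb_zero]; rfl⟩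
      · intro a b hab hb
        obtain ⟨β, hβ, hb⟩ := (cb_limit hlim b).1 hb
        exact (cb_limit hlim a).2 ⟨β, hβ, (ih β hβ).2.1.down a b hab hb⟩
      · intro a b ha hb
        obtain ⟨β, hβ, ha⟩ := (cb_limit hlim a).1 ha
        obtain ⟨γ, hγ, hb⟩ := (cb_limit hlim b).1 hb
        rcases lt_trichotomy β γ with hlt | heq | hgt
        · exact (cb_limit hlim _).2 ⟨γ, hγ, (ih γ hγ).2.1.sup a b ((ih γ hγ).1 β hlt ha) hb⟩
        · subst heq
          exact (cb_limit hlim _).2 ⟨β, hγ, (ih β hγ).2.1.sup a b ha hb⟩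
        · exact (cb_limit hlim _).2 ⟨β, hβ, (ih β hβ).2.1.sup a b ha ((ih β hβ).1 γ hgt hb)⟩
      · intro b hb hne
        obtain ⟨β, hβ, hb⟩ := (cb_limit hlim b).1 hb
        obtain ⟨γ, hγ, hb⟩ := (ih β hβ).2.2 b hb hne
        exact ⟨γ, hγ.trans hβ, hb⟩

theorem cb_mono {α β : Ordinal.{u}} (h : α ≤ β) : cbIdeal B α ⊆ cbIdeal B β := by
  rcases eq_or_lt_of_le h with rfl | h
  · exact subset_rfl
  · exact (cb_all β).1 α h

theorem cb_isId (α : Ordinal.{u}) : IsId (cbIdeal B α) := (cb_all α).2.1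

theorem cb_exists {α : Ordinal.{u}} {b : B} (hb : b ∈ cbIdeal B α) (hne : b ≠ ⊥) :
    ∃ β < α, b ∈ cbIdeal B (β + 1) := (cb_all α).2.2 b hb hne

theorem mem_succ_of_atomMod {α : Ordinal.{u}} {a : B} (h : a ∈ cbIdeal B α ∨ AtomMod (cbIdeal B α) a) :
    a ∈ cbIdeal B (α + 1) := by
  rw [cb_succ]
  rcases h with h | h
  · exact (next_isId (cb_isId α)).1 h
  · exact ⟨{a}, by simpa using h, by simpa using (cb_isId α).bot⟩

end ideals

/-- Points of the poset algebra. -/
structure Pts {P B : Type u} [PartialOrder P] [BooleanAlgebra B] (x : P → B)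
    (s : LowerSet P → B → Prop) : Prop where
  gen : ∀ J p, s J (x p) ↔ p ∉ J
  inf : ∀ J a b, s J (a ⊓ b) ↔ s J a ∧ s J b
  sup : ∀ J a b, s J (a ⊔ b) ↔ s J a ∨ s J b
  bot : ∀ J, ¬ s J ⊥
  compl : ∀ J a, s J aᶜ ↔ ¬ s J a
  closure : BooleanSubalgebra.closure (Set.range x) = ⊤
  mono_x : Monotone x

theorem exists_pts {P B : Type u} [PartialOrder P] [BooleanAlgebra B] {x : P → B}
    (h : IsPosetAlgebra P B x) : ∃ s : LowerSet P → B → Prop, Pts x s := by
  obtain ⟨hx, huniv⟩ := h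
  have hcl : BooleanSubalgebra.closure (Set.range x) = ⊤ := by
    let S := BooleanSubalgebra.closure (Set.range x)
    obtain ⟨g, hg, -⟩ := huniv S (fun p => ⟨x p, BooleanSubalgebra.subset_closure ⟨p, rfl⟩⟩)
      (fun p q hpq => hx hpq)
    obtain ⟨g0, -, huniq⟩ := huniv B x hx
    have h1 : S.subtype.comp g = g0 := huniq _ fun p => by
      show S.subtype (g (x p)) = x p
      rw [hg p]
      rfl
    have h2 : BoundedLatticeHom.id B = g0 := huniq _ fun p => rfl
    rw [eq_top_iff]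
    intro b _
    have h3 : (S.subtype.comp g) b = b := by rw [h1, ← h2]; rfl
    rw [← h3]
    exact (g b).2
  have hpt : ∀ J : LowerSet P, ∃ g : BoundedLatticeHom B (Set PUnit.{u + 1}),
      ∀ p, g (x p) = {_t | p ∉ J} := by
    intro J
    obtain ⟨g, hg, -⟩ := huniv (Set PUnit.{u + 1}) (fun p => {_t | p ∉ J})
      (fun p q hpq t ht => fun hq => ht (J.lower hpq hq))
    exact ⟨g, hg⟩
  choose g hg using hpt
  refine ⟨fun J b => PUnit.unit ∈ g J b, ⟨?_, ?_, ?_, ?_, ?_, hcl, hx⟩⟩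
  · intro J p
    rw [hg]
    exact Iff.rfl
  · intro J a b
    rw [map_inf]
    exact Iff.rfl
  · intro J a b
    rw [map_sup]
    exact Iff.rfl
  · intro J
    rw [map_bot]
    exact fun hh => hh
  · intro J a
    have h1 : g J aᶜ = (g J a)ᶜ := map_compl' (g J) a
    rw [h1]
    exact Iff.rfl

section points

variable {P B : Type u} [PartialOrder P] [BooleanAlgebra B] {x : P → B}
  {s : LowerSet P → B → Prop} (hs : Pts x s)
include hs

theorem Pts.mono {J : LowerSet P} {a b : B} (hab : a ≤ b) (ha : s J a) : s J b := by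
  have : a ⊔ b = b := sup_eq_right.2 hab
  rw [← this, hs.sup]
  exact Or.inl ha

theorem Pts.sdiff (J : LowerSet P) (a b : B) : s J (a \ b) ↔ s J a ∧ ¬ s J b := by
  rw [sdiff_eq, hs.inf, hs.compl]

theorem Pts.finset_sup (J : LowerSet P) (F : Finset B) : s J (F.sup id) ↔ ∃ a ∈ F, s J a := by
  classical
  induction F using Finset.induction_on with
  | empty => simpa using hs.bot J
  | insert a t _ ih =>
    rw [Finset.sup_insert, hs.sup, ih]
    simp

theorem Pts.local' (b : B) : ∃ F : Finset P, ∀ J K : LowerSet P, (∀ p ∈ F, (p ∈ J ↔ p ∈ K)) →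
    (s J b ↔ s K b) := by
  classical
  have hb : b ∈ BooleanSubalgebra.closure (Set.range x) := by rw [hs.closure]; trivial
  induction hb using BooleanSubalgebra.closure_bot_sup_induction with
  | mem a ha =>
    obtain ⟨p, rfl⟩ := ha
    refine ⟨{p}, fun J K hJK => ?_⟩
    rw [hs.gen, hs.gen, hJK p (by simp)]
  | bot => exact ⟨∅, fun J K _ => by simp [hs.bot]⟩
  | sup a _ b _ iha ihb =>
    obtain ⟨F, hF⟩ := iha
    obtain ⟨G, hG⟩ := ihb
    refine ⟨F ∪ G, fun J K hJK => ?_⟩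
    rw [hs.sup, hs.sup, hF J K fun p hp => hJK p (by simp [hp]),
      hG J K fun p hp => hJK p (by simp [hp])]
  | compl a _ iha =>
    obtain ⟨F, hF⟩ := iha
    refine ⟨F, fun J K hJK => ?_⟩
    rw [hs.compl, hs.compl, hF J K hJK]

/-- separation from an ideal -/
theorem Pts.sep {I : Set B} (hI : IsId I) {b : B} (hb : b ∉ I) :
    ∃ J, s J b ∧ ∀ c ∈ I, ¬ s J c := by
  let I' : Order.Ideal B := ⟨⟨I, fun a c hca ha => hI.down c a hca ha⟩, ⟨⊥, hI.bot⟩,
    fun a ha c hc => ⟨a ⊔ c, hI.sup a c ha hc, le_sup_left, le_sup_right⟩⟩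
  have hdisj : Disjoint ((Order.PFilter.principal b : Order.PFilter B) : Set B) (I' : Set B) := by
    rw [Set.disjoint_left]
    intro c hc hcI
    have hbc : b ≤ c := hc
    exact hb (hI.down b c hbc hcI)
  obtain ⟨Q, hQ, hIQ, hQdis⟩ := DistribLattice.prime_ideal_of_disjoint_filter_ideal hdisj
  have hbQ : b ∉ Q := by
    intro hh
    rw [Set.disjoint_left] at hQdis
    exact hQdis (show b ∈ ((Order.PFilter.principal b : Order.PFilter B) : Set B) from le_refl b) hh
  have hx : Monotone x := hs.mono_x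
  let J : LowerSet P := ⟨{p | x p ∈ Q}, fun p q hqp hp => Q.lower (hx hqp) hp⟩
  have key : ∀ c : B, s J c ↔ c ∉ Q := by
    intro c
    have hc : c ∈ BooleanSubalgebra.closure (Set.range x) := by rw [hs.closure]; trivial
    induction hc using BooleanSubalgebra.closure_bot_sup_induction with
    | mem a ha =>
      obtain ⟨p, rfl⟩ := ha
      rw [hs.gen]
      exact Iff.rfl
    | bot => simp [hs.bot]
    | sup a _ b _ iha ihb =>
      have iha' : s J a ↔ a ∉ Q := iha
      have ihb' : s J b ↔ b ∉ Q := ihb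
      rw [hs.sup, iha', ihb', Order.Ideal.sup_mem_iff]
      tauto
    | compl a _ iha =>
      have iha' : s J a ↔ a ∉ Q := iha
      rw [hs.compl, iha']
      have h1 := hQ.mem_or_compl_mem (x := a)
      have h2 : a ∈ Q → aᶜ ∉ Q := by
        intro h3 h4
        have h5 : (⊤ : B) ∈ Q := by
          have := Q.sup_mem h3 h4
          rwa [sup_compl_eq_top] at this
        exact hbQ (Q.lower le_top h5)
      tauto
  exact ⟨J, (key b).2 hbQ, fun c hc hJc => (key c).1 hJc (hIQ hc)⟩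

/-- the union of all Cantor-Bendixson ideals is everything -/
theorem Pts.exhaust (hS : Superatomic B) : ∀ b : B, ∃ α : Ordinal.{u}, b ∈ cbIdeal B α := by
  let I : Set B := {b | ∃ α : Ordinal.{u}, b ∈ cbIdeal B α}
  have hI : IsId I := by
    refine ⟨⟨0, (cb_isId 0).bot⟩, ?_, ?_⟩
    · rintro a b hab ⟨α, hb⟩
      exact ⟨α, (cb_isId α).down a b hab hb⟩
    · rintro a b ⟨α, ha⟩ ⟨β, hb⟩
      exact ⟨max α β, (cb_isId _).sup a b (cb_mono (le_max_left α β) ha)
        (cb_mono (le_max_right α β) hb)⟩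
  by_contra hcon
  push Not at hcon
  obtain ⟨b0, hb0⟩ := hcon
  let Y : Set (LowerSet P) := {J | ∀ c ∈ I, ¬ s J c}
  let φ : BoundedLatticeHom B (Set Y) :=
    { toFun := fun b => {J | s J.1 b}
      map_sup' := fun a b => by ext J; exact hs.sup J.1 a b
      map_inf' := fun a b => by ext J; exact hs.inf J.1 a b
      map_top' := by
        ext J
        constructor
        · intro _; trivial
        · intro _
          show s J.1 ⊤
          rw [← compl_bot, hs.compl]
          exact hs.bot J.1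
      map_bot' := by
        ext J
        constructor
        · intro hh; exact hs.bot J.1 hh
        · intro hh; exact hh.elim }
  let A : BooleanSubalgebra (Set Y) := (⊤ : BooleanSubalgebra B).map φ
  let g : BoundedLatticeHom B A :=
    { toFun := fun b => ⟨φ b, b, trivial, rfl⟩
      map_sup' := fun a b => Subtype.ext (map_sup φ a b)
      map_inf' := fun a b => Subtype.ext (map_inf φ a b)
      map_top' := Subtype.ext (map_top φ)
      map_bot' := Subtype.ext (map_bot φ) }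
  have hg : Function.Surjective g := by
    rintro ⟨_, b, _, rfl⟩
    exact ⟨b, rfl⟩
  have hat : IsAtomic A := hS A g hg
  have hzero : ∀ c : B, g c = ⊥ → c ∈ I := by
    intro c hc
    by_contra hcI
    obtain ⟨J, hJ, hJI⟩ := hs.sep hI hcI
    have h1 : φ c = ⊥ := congrArg Subtype.val hc
    have h2 : (⟨J, hJI⟩ : Y) ∈ φ c := hJ
    rw [h1] at h2
    exact h2
  have hb0' : g b0 ≠ ⊥ := fun hh => by
    obtain ⟨α, hα⟩ := hzero b0 hh
    exact hb0 α hα
  obtain ⟨a0, ha0, -⟩ := (hat.eq_bot_or_exists_atom_le (g b0)).resolve_left hb0'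
  obtain ⟨a, rfl⟩ := hg a0
  have hdich : ∀ c : B, ∃ α : Ordinal.{u}, c ≤ a → c ∈ cbIdeal B α ∨ a \ c ∈ cbIdeal B α := by
    intro c
    by_cases hc : c ≤ a
    · have h1 : g c ≤ g a := OrderHomClass.mono g hc
      rcases ha0.le_iff.1 h1 with h2 | h2
      · obtain ⟨α, hα⟩ := hzero c h2
        exact ⟨α, fun _ => Or.inl hα⟩
      · have h3 : g (a \ c) = ⊥ := by
          have h4 : g (a \ c) = g a \ g c := map_sdiff' g a c
          rw [h4, h2]
          exact sdiff_self
        obtain ⟨α, hα⟩ := hzero _ h3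
        exact ⟨α, fun _ => Or.inr hα⟩
    · exact ⟨0, fun hh => absurd hh hc⟩
  choose f hf using hdich
  let α : Ordinal.{u} := ⨆ c : B, f c
  have hα : ∀ c, f c ≤ α := fun c => Ordinal.le_iSup f c
  have h1 : a ∈ cbIdeal B α ∨ AtomMod (cbIdeal B α) a := by
    by_cases h2 : a ∈ cbIdeal B α
    · exact Or.inl h2
    · right
      refine ⟨h2, fun c hc => ?_⟩
      rcases hf c hc with h3 | h3
      · exact Or.inl (cb_mono (hα c) h3)
      · exact Or.inr (cb_mono (hα c) h3)
  have h2 : a ∈ I := ⟨α + 1, mem_succ_of_atomMod h1⟩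
  apply ha0.1
  apply Subtype.ext
  show φ a = ⊥
  ext J
  constructor
  · intro hh
    exact (J.2 a h2 hh).elim
  · intro hh
    exact hh.elim

end points

section rank

variable {P B : Type u} [PartialOrder P] [BooleanAlgebra B] {x : P → B}
  {s : LowerSet P → B → Prop}

/-- the rank of a point -/
noncomputable def rk (s : LowerSet P → B → Prop) (J : LowerSet P) : Ordinal.{u} :=
  sInf {α | ∃ b ∈ cbIdeal B (α + 1), s J b}

theorem rk_le {J : LowerSet P} {α : Ordinal.{u}} {b : B} (hb : b ∈ cbIdeal B (α + 1))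
    (hJ : s J b) : rk s J ≤ α := csInf_le' ⟨b, hb, hJ⟩

variable (hs : Pts x s) (hex : ∀ b : B, ∃ α : Ordinal.{u}, b ∈ cbIdeal B α)
include hs

theorem rk_lt {J : LowerSet P} {α : Ordinal.{u}} {b : B} (hb : b ∈ cbIdeal B α)
    (hJ : s J b) : rk s J < α := by
  have hne : b ≠ ⊥ := fun hh => hs.bot J (by rw [← hh]; exact hJ)
  obtain ⟨β, hβ, hb'⟩ := cb_exists hb hne
  exact lt_of_le_of_lt (rk_le hb' hJ) hβ

include hex

theorem rk_spec (J : LowerSet P) : ∃ b ∈ cbIdeal B (rk s J + 1), s J b := by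
  have hne : {α | ∃ b ∈ cbIdeal B (α + 1), s J b}.Nonempty := by
    obtain ⟨α, hα⟩ := hex (⊤ : B)
    refine ⟨α, ⊤, cb_mono (Order.le_succ α) hα, ?_⟩
    rw [← compl_bot, hs.compl]
    exact hs.bot J
  exact csInf_mem hne

theorem mem_of_rk_lt {α : Ordinal.{u}} {b : B} (hb : ∀ J, s J b → rk s J < α) :
    b ∈ cbIdeal B α := by
  by_contra hcon
  obtain ⟨J, hJ, hJI⟩ := hs.sep (cb_isId α) hcon
  obtain ⟨c, hc, hJc⟩ := rk_spec hs hex J
  exact hJI c (cb_mono (Order.succ_le_of_lt (hb J hJ)) hc) hJc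

omit hex in
theorem exists_sep {J K : LowerSet P} (hne : K ≠ J) : ∃ c : B, s J c ∧ ¬ s K c := by
  have : ∃ p, ¬ (p ∈ J ↔ p ∈ K) := by
    by_contra hcon
    push Not at hcon
    exact hne (SetLike.ext fun p => (hcon p).symm)
  obtain ⟨p, hp⟩ := this
  by_cases hpJ : p ∈ J
  · refine ⟨(x p)ᶜ, ?_, ?_⟩
    · rw [hs.compl, hs.gen]; tauto
    · rw [hs.compl, hs.gen]; tauto
  · refine ⟨x p, ?_, ?_⟩
    · rw [hs.gen]; exact hpJ
    · rw [hs.gen]; tauto

theorem exists_peak (J : LowerSet P) : ∃ a : B, s J a ∧ ∀ K, s K a → K ≠ J → rk s K < rk s J := by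
  obtain ⟨b, hb, hJb⟩ := rk_spec hs hex J
  rw [cb_succ] at hb
  obtain ⟨F, hF, hbF⟩ := hb
  have h1 : ¬ s J (b \ F.sup id) := fun hh => lt_irrefl _ (rk_lt hs hbF hh)
  rw [hs.sdiff] at h1
  push Not at h1
  have h2 := h1 hJb
  rw [hs.finset_sup] at h2
  obtain ⟨a, ha, hJa⟩ := h2
  refine ⟨a, hJa, fun K hK hne => ?_⟩
  obtain ⟨c, hJc, hKc⟩ := exists_sep hs hne
  have h3 : s J (a ⊓ c) := (hs.inf J a c).2 ⟨hJa, hJc⟩
  rcases (hF a ha).2 (a ⊓ c) inf_le_left with h4 | h4
  · exact absurd (rk_lt hs h4 h3) (lt_irrefl _)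
  · refine rk_lt hs h4 ?_
    rw [hs.sdiff, hs.inf]
    tauto

theorem exists_limit (J : LowerSet P) {γ : Ordinal.{u}} (hγ : γ < rk s J) {b : B} (hb : s J b) :
    ∃ K, s K b ∧ K ≠ J ∧ γ ≤ rk s K := by
  by_contra hcon
  push Not at hcon
  have h1 : b ∈ cbIdeal B γ ∨ AtomMod (cbIdeal B γ) b := by
    by_cases h2 : b ∈ cbIdeal B γ
    · exact Or.inl h2
    · right
      refine ⟨h2, fun c hc => ?_⟩
      by_cases hJc : s J c
      · right
        refine mem_of_rk_lt hs hex fun K hK => ?_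
        rw [hs.sdiff] at hK
        exact hcon K hK.1 fun hh => hK.2 (by rw [hh]; exact hJc)
      · left
        refine mem_of_rk_lt hs hex fun K hK => ?_
        exact hcon K (hs.mono hc hK) fun hh => hJc (by rw [← hh]; exact hK)
  have h2 := mem_succ_of_atomMod h1
  exact absurd (rk_le h2 hb) (not_le.2 hγ)

end rank

end Pool.Agent.H74.PosetAlg
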