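import Pool.Agent.H74.PosetAlg.Tca

namespace Pool.Agent.H74.PosetAlg

open Filter

universe u v w

/-- natural sum of two ordinals, as a rank in the product order -/
noncomputable def nsum (a b : Ordinal.{u}) : Ordinal.{u + 1} :=
  IsWellFounded.rank (α := Ordinal.{u} × Ordinal.{u}) (· < ·) (a, b)

theorem nsum_lt {a b c d : Ordinal.{u}} (h : (a, b) < (c, d)) : nsum a b < nsum c d :=
  IsWellFounded.rank_lt_of_rel h

theorem nsum_le {a b c d : Ordinal.{u}} (h1 : a ≤ c) (h2 : b ≤ d) : nsum a b ≤ nsum c d := by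
  rcases eq_or_lt_of_le (show (a, b) ≤ (c, d) from ⟨h1, h2⟩) with h | h
  · rw [Prod.mk.injEq] at h
    rw [h.1, h.2]
  · exact (nsum_lt h).le

theorem nsum_lt_left {a c b : Ordinal.{u}} (h : a < c) : nsum a b < nsum c b :=
  nsum_lt (Prod.mk_lt_mk_iff_left.2 h)

theorem nsum_lt_right {a b d : Ordinal.{u}} (h : b < d) : nsum a b < nsum a d :=
  nsum_lt (Prod.mk_lt_mk_iff_right.2 h)

theorem lt_nsum {c : Ordinal.{u + 1}} {a b : Ordinal.{u}} (h : c < nsum a b) :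
    (∃ a' < a, c ≤ nsum a' b) ∨ ∃ b' < b, c ≤ nsum a b' := by
  unfold nsum at h
  rw [IsWellFounded.rank_eq, Ordinal.lt_iSup_iff] at h
  obtain ⟨⟨⟨a', b'⟩, hlt⟩, hc⟩ := h
  rw [Order.lt_succ_iff] at hc
  have hle : (a', b') ≤ (a, b) := hlt.le
  rcases eq_or_lt_of_le hle.1 with h1 | h1
  · right
    have h2 : b' < b := by
      rcases eq_or_lt_of_le hle.2 with h2 | h2
      · exact absurd (Prod.ext h1 h2) hlt.ne
      · exact h2
    exact ⟨b', h2, hc.trans (nsum_le hle.1 le_rfl)⟩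
  · left
    exact ⟨a', h1, hc.trans (nsum_le le_rfl hle.2)⟩

variable {P : Type v} {X : Type w} [DistribLattice X]

/-- the Cantor-Bendixson rank is supermodular -/
theorem supermod (mem : P → X → Prop) (rho : X → Ordinal.{u})
    (mem_sup : ∀ p x y, mem p (x ⊔ y) ↔ mem p x ∨ mem p y)
    (mem_inf : ∀ p x y, mem p (x ⊓ y) ↔ mem p x ∧ mem p y)
    (peak : ∀ I, ∃ F : Finset P, ∀ J, (∀ p ∈ F, (mem p J ↔ mem p I)) → J ≠ I → rho J < rho I)
    (limit : ∀ I γ, γ < rho I → ∀ F : Finset P,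
      ∃ J, (∀ p ∈ F, (mem p J ↔ mem p I)) ∧ J ≠ I ∧ γ ≤ rho J)
    (K J : X) : nsum (rho K) (rho J) ≤ nsum (rho (K ⊓ J)) (rho (K ⊔ J)) := by
  classical
  suffices H : ∀ t : Ordinal.{u} × Ordinal.{u}, ∀ K J : X, (rho K, rho J) = t →
      nsum (rho K) (rho J) ≤ nsum (rho (K ⊓ J)) (rho (K ⊔ J)) from H _ K J rfl
  intro t
  induction t using WellFoundedLT.induction with
  | ind t ih =>
    intro K J ht
    refine le_of_forall_lt fun c hc => ?_
    obtain ⟨F1, hF1⟩ := peak (K ⊓ J)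
    obtain ⟨F2, hF2⟩ := peak (K ⊔ J)
    rcases lt_nsum hc with ⟨a', ha', hca⟩ | ⟨b', hb', hcb⟩
    · obtain ⟨F3, hF3⟩ := peak K
      obtain ⟨K', hK1, hK2, hK3⟩ := limit K a' ha' (F1 ∪ F2 ∪ F3)
      have hK4 : rho K' < rho K := hF3 K' (fun p hp => hK1 p (by simp [hp])) hK2
      have h1 : nsum (rho K') (rho J) ≤ nsum (rho (K' ⊓ J)) (rho (K' ⊔ J)) :=
        ih (rho K', rho J) (by rw [← ht]; exact Prod.mk_lt_mk_iff_left.2 hK4) K' J rfl
      have h2 : K' ⊓ J ≠ K ⊓ J ∨ K' ⊔ J ≠ K ⊔ J := by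
        by_contra hcon
        push Not at hcon
        exact hK2 (eq_of_inf_eq_sup_eq hcon.1 hcon.2)
      have h3 : ∀ p ∈ F1, (mem p (K' ⊓ J) ↔ mem p (K ⊓ J)) := fun p hp => by
        rw [mem_inf, mem_inf, hK1 p (by simp [hp])]
      have h4 : ∀ p ∈ F2, (mem p (K' ⊔ J) ↔ mem p (K ⊔ J)) := fun p hp => by
        rw [mem_sup, mem_sup, hK1 p (by simp [hp])]
      have h5 : K' ⊓ J ≠ K ⊓ J → rho (K' ⊓ J) < rho (K ⊓ J) := hF1 _ h3
      have h6 : K' ⊔ J ≠ K ⊔ J → rho (K' ⊔ J) < rho (K ⊔ J) := hF2 _ h4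
      have h5' : rho (K' ⊓ J) ≤ rho (K ⊓ J) := by
        by_cases hh : K' ⊓ J = K ⊓ J
        · rw [hh]
        · exact (h5 hh).le
      have h6' : rho (K' ⊔ J) ≤ rho (K ⊔ J) := by
        by_cases hh : K' ⊔ J = K ⊔ J
        · rw [hh]
        · exact (h6 hh).le
      have h7 : nsum (rho (K' ⊓ J)) (rho (K' ⊔ J)) < nsum (rho (K ⊓ J)) (rho (K ⊔ J)) := by
        rcases h2 with h2 | h2
        · exact lt_of_lt_of_le (nsum_lt_left (h5 h2)) (nsum_le le_rfl h6')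
        · exact lt_of_lt_of_le (nsum_lt_right (h6 h2)) (nsum_le h5' le_rfl)
      exact lt_of_le_of_lt (hca.trans ((nsum_le hK3 le_rfl).trans h1)) h7
    · obtain ⟨F3, hF3⟩ := peak J
      obtain ⟨J', hK1, hK2, hK3⟩ := limit J b' hb' (F1 ∪ F2 ∪ F3)
      have hK4 : rho J' < rho J := hF3 J' (fun p hp => hK1 p (by simp [hp])) hK2
      have h1 : nsum (rho K) (rho J') ≤ nsum (rho (K ⊓ J')) (rho (K ⊔ J')) :=
        ih (rho K, rho J') (by rw [← ht]; exact Prod.mk_lt_mk_iff_right.2 hK4) K J' rfl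
      have h2 : K ⊓ J' ≠ K ⊓ J ∨ K ⊔ J' ≠ K ⊔ J := by
        by_contra hcon
        push Not at hcon
        refine hK2 (eq_of_inf_eq_sup_eq (a := K) ?_ ?_)
        · rw [inf_comm, hcon.1, inf_comm]
        · rw [sup_comm, hcon.2, sup_comm]
      have h3 : ∀ p ∈ F1, (mem p (K ⊓ J') ↔ mem p (K ⊓ J)) := fun p hp => by
        rw [mem_inf, mem_inf, hK1 p (by simp [hp])]
      have h4 : ∀ p ∈ F2, (mem p (K ⊔ J') ↔ mem p (K ⊔ J)) := fun p hp => by
        rw [mem_sup, mem_sup, hK1 p (by simp [hp])]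
      have h5 : K ⊓ J' ≠ K ⊓ J → rho (K ⊓ J') < rho (K ⊓ J) := hF1 _ h3
      have h6 : K ⊔ J' ≠ K ⊔ J → rho (K ⊔ J') < rho (K ⊔ J) := hF2 _ h4
      have h5' : rho (K ⊓ J') ≤ rho (K ⊓ J) := by
        by_cases hh : K ⊓ J' = K ⊓ J
        · rw [hh]
        · exact (h5 hh).le
      have h6' : rho (K ⊔ J') ≤ rho (K ⊔ J) := by
        by_cases hh : K ⊔ J' = K ⊔ J
        · rw [hh]
        · exact (h6 hh).le
      have h7 : nsum (rho (K ⊓ J')) (rho (K ⊔ J')) < nsum (rho (K ⊓ J)) (rho (K ⊔ J)) := by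
        rcases h2 with h2 | h2
        · exact lt_of_lt_of_le (nsum_lt_left (h5 h2)) (nsum_le le_rfl h6')
        · exact lt_of_lt_of_le (nsum_lt_right (h6 h2)) (nsum_le h5' le_rfl)
      exact lt_of_le_of_lt (hcb.trans ((nsum_le le_rfl hK3).trans h1)) h7

/-- Good data from the elementary properties of the rank -/
theorem good_of (D : Dat P X) 
    (le_iff : ∀ x y : X, x ≤ y ↔ ∀ p, D.mem p x → D.mem p y)
    (mem_sup : ∀ p x y, D.mem p (x ⊔ y) ↔ D.mem p x ∨ D.mem p y)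
    (mem_inf : ∀ p x y, D.mem p (x ⊓ y) ↔ D.mem p x ∧ D.mem p y)
    (lim : ∀ U : Ultrafilter X, ∃ L, ∀ p, D.mem p L ↔ ∀ᶠ x in (U : Filter X), D.mem p x)
    (peak : ∀ I, ∃ F : Finset P, ∀ J, (∀ p ∈ F, (D.mem p J ↔ D.mem p I)) → J ≠ I →
      D.rho J < D.rho I)
    (limit : ∀ I γ, γ < D.rho I → ∀ F : Finset P,
      ∃ J, (∀ p ∈ F, (D.mem p J ↔ D.mem p I)) ∧ J ≠ I ∧ γ ≤ D.rho J)
    (e_inj : Function.Injective D.e) : D.Good := by
  have sm := supermod D.mem D.rho mem_sup mem_inf peak limit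
  refine ⟨le_iff, mem_sup, mem_inf, lim, peak, ?_, ?_, ?_, ?_, e_inj⟩
  · intro K J hh
    by_contra hcon
    push Not at hcon
    have h1 := sm J K
    rw [inf_comm, sup_comm] at h1
    have h2 : nsum (D.rho (K ⊓ J)) (D.rho (K ⊔ J)) < nsum (D.rho J) (D.rho K) :=
      lt_of_le_of_lt (nsum_le le_rfl hh) (nsum_lt_left hcon)
    exact absurd h1 (not_le.2 h2)
  · intro K J hh
    by_contra hcon
    push Not at hcon
    have h1 := sm J K
    rw [inf_comm, sup_comm] at h1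
    have h2 : nsum (D.rho (K ⊓ J)) (D.rho (K ⊔ J)) < nsum (D.rho J) (D.rho K) :=
      lt_of_le_of_lt (nsum_le hcon le_rfl) (nsum_lt_right hh)
    exact absurd h1 (not_le.2 h2)
  · intro K J hh
    by_contra hcon
    push Not at hcon
    have h1 := sm K J
    have h2 : nsum (D.rho (K ⊓ J)) (D.rho (K ⊔ J)) < nsum (D.rho K) (D.rho J) :=
      lt_of_le_of_lt (nsum_le hh le_rfl) (nsum_lt_right hcon)
    exact absurd h1 (not_le.2 h2)
  · intro K J hh
    by_contra hcon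
    push Not at hcon
    have h1 := sm K J
    have h2 : nsum (D.rho (K ⊓ J)) (D.rho (K ⊔ J)) < nsum (D.rho K) (D.rho J) :=
      lt_of_le_of_lt (nsum_le le_rfl hcon) (nsum_lt_left hh)
    exact absurd h1 (not_le.2 h2)

end Pool.Agent.H74.PosetAlg
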