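import Mathlib

namespace Pool.Agent.H74.PosetAlg

open Filter OrderDual

universe u v w z

/-- Data: points `X`, elements `P`, membership, rank, and a well ordering of `P`. -/
structure Dat (P : Type u) (X : Type v) where
  mem : P → X → Prop
  rho : X → Ordinal.{w}
  e : P → Ordinal.{z}

variable {P : Type u} {X : Type v}

/-- The dual data. -/
def Dat.dual (D : Dat.{u, v, w, z} P X) : Dat.{u, v, w, z} P Xᵒᵈ where
  mem p x := ¬ D.mem p (ofDual x)
  rho x := D.rho (ofDual x)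
  e := D.e

structure Dat.Good [Lattice X] (D : Dat.{u, v, w, z} P X) : Prop where
  le_iff : ∀ x y : X, x ≤ y ↔ ∀ p, D.mem p x → D.mem p y
  mem_sup : ∀ p x y, D.mem p (x ⊔ y) ↔ D.mem p x ∨ D.mem p y
  mem_inf : ∀ p x y, D.mem p (x ⊓ y) ↔ D.mem p x ∧ D.mem p y
  lim : ∀ U : Ultrafilter X, ∃ L, ∀ p, D.mem p L ↔ ∀ᶠ x in (U : Filter X), D.mem p x
  peak : ∀ I, ∃ F : Finset P, ∀ J, (∀ p ∈ F, (D.mem p J ↔ D.mem p I)) → J ≠ I → D.rho J < D.rho I
  sup_le : ∀ K J, D.rho (K ⊔ J) ≤ D.rho K → D.rho J ≤ D.rho (K ⊓ J)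
  sup_lt : ∀ K J, D.rho (K ⊔ J) < D.rho K → D.rho J < D.rho (K ⊓ J)
  inf_le : ∀ K J, D.rho (K ⊓ J) ≤ D.rho K → D.rho J ≤ D.rho (K ⊔ J)
  inf_lt : ∀ K J, D.rho (K ⊓ J) < D.rho K → D.rho J < D.rho (K ⊔ J)
  e_inj : Function.Injective D.e

theorem Dat.Good.dual [Lattice X] {D : Dat.{u, v, w, z} P X} (h : D.Good) : D.dual.Good where
  le_iff x y := by
    show ofDual y ≤ ofDual x ↔ ∀ p, ¬ D.mem p (ofDual x) → ¬ D.mem p (ofDual y)
    rw [h.le_iff]
    constructor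
    · intro hh p hp hq; exact hp (hh p hq)
    · intro hh p hp; by_contra hq; exact hh p hq hp
  mem_sup p x y := by
    show ¬ D.mem p (ofDual x ⊓ ofDual y) ↔ _
    rw [h.mem_inf]
    show _ ↔ ¬ D.mem p (ofDual x) ∨ ¬ D.mem p (ofDual y)
    tauto
  mem_inf p x y := by
    show ¬ D.mem p (ofDual x ⊔ ofDual y) ↔ _
    rw [h.mem_sup]
    show _ ↔ ¬ D.mem p (ofDual x) ∧ ¬ D.mem p (ofDual y)
    tauto
  lim U := by
    obtain ⟨L, hL⟩ := h.lim (U.map ofDual)
    refine ⟨toDual L, fun p => ?_⟩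
    show ¬ D.mem p L ↔ ∀ᶠ x in (U : Filter Xᵒᵈ), ¬ D.mem p (ofDual x)
    rw [hL p, Ultrafilter.coe_map, Filter.eventually_map, Ultrafilter.eventually_not]
  peak I := by
    obtain ⟨F, hF⟩ := h.peak (ofDual I)
    refine ⟨F, fun J hJ hne => hF (ofDual J) (fun p hp => ?_) hne⟩
    have := hJ p hp
    have h2 : (¬ D.mem p (ofDual J) ↔ ¬ D.mem p (ofDual I)) := this
    tauto
  sup_le K J := h.inf_le (ofDual K) (ofDual J)
  sup_lt K J := h.inf_lt (ofDual K) (ofDual J)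
  inf_le K J := h.sup_le (ofDual K) (ofDual J)
  inf_lt K J := h.sup_lt (ofDual K) (ofDual J)
  e_inj := h.e_inj

section defs

variable [Lattice X] (D : Dat.{u, v, w, z} P X)

/-- visible bad points below `I` -/
def KSet (I M : X) : Prop :=
  M < I ∧ D.rho I ≤ D.rho M ∧ ∀ K, M < K → K < I → D.rho K ≤ D.rho M

/-- the least element of `I` outside `M` -/
def IsWall (M I : X) (p : P) : Prop :=
  D.mem p I ∧ ¬ D.mem p M ∧ ∀ q, D.mem q I → ¬ D.mem q M → D.e p ≤ D.e q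

def Am (I : X) : Set P := {p | ∃ M, KSet D I M ∧ IsWall D M I p}

def Rm (I J : X) : Prop := J ≤ I ∧ ∀ p ∈ Am D I, D.mem p J

def KSet' (I M : X) : Prop :=
  I < M ∧ D.rho I ≤ D.rho M ∧ ∀ K, I < K → K < M → D.rho K ≤ D.rho M

def Ap (I : X) : Set P := {p | ∃ M, KSet' D I M ∧ IsWall D I M p}

def Rp (I J : X) : Prop := I ≤ J ∧ ∀ p ∈ Ap D I, ¬ D.mem p J

def Bm (J : X) : Set P := {p | ∃ K, Rp D K J ∧ p ∈ Am D K}

def Bp (J : X) : Set P := {p | ∃ K, Rm D K J ∧ p ∈ Ap D K}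

end defs

section dual

variable [Lattice X] {D : Dat.{u, v, w, z} P X}

theorem Am_dual (I : X) : Am D.dual (toDual I) = Ap D I := by
  ext p
  constructor
  · rintro ⟨M, ⟨h1, h2, h3⟩, h4, h5, h6⟩
    refine ⟨ofDual M, ⟨h1, h2, fun K hK hK' => h3 (toDual K) hK' hK⟩, not_not.1 h5, h4, ?_⟩
    intro q hq hq'
    exact h6 q hq' (not_not.2 hq)
  · rintro ⟨M, ⟨h1, h2, h3⟩, h4, h5, h6⟩
    refine ⟨toDual M, ⟨h1, h2, fun K hK hK' => h3 (ofDual K) hK' hK⟩, h5, not_not.2 h4, ?_⟩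
    intro q hq hq'
    exact h6 q (not_not.1 hq') hq

theorem Ap_dual (I : X) : Ap D.dual (toDual I) = Am D I := by
  ext p
  constructor
  · rintro ⟨M, ⟨h1, h2, h3⟩, h4, h5, h6⟩
    refine ⟨ofDual M, ⟨h1, h2, fun K hK hK' => h3 (toDual K) hK' hK⟩, not_not.1 h5, h4, ?_⟩
    intro q hq hq'
    exact h6 q hq' (not_not.2 hq)
  · rintro ⟨M, ⟨h1, h2, h3⟩, h4, h5, h6⟩
    refine ⟨toDual M, ⟨h1, h2, fun K hK hK' => h3 (ofDual K) hK' hK⟩, h5, not_not.2 h4, ?_⟩
    intro q hq hq'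
    exact h6 q (not_not.1 hq') hq

theorem Rm_dual (I J : X) : Rm D.dual (toDual I) (toDual J) ↔ Rp D I J := by
  unfold Rm Rp
  rw [Am_dual]
  exact Iff.rfl

theorem Rp_dual (I J : X) : Rp D.dual (toDual I) (toDual J) ↔ Rm D I J := by
  unfold Rm Rp
  rw [Ap_dual]
  constructor
  · rintro ⟨h1, h2⟩
    exact ⟨h1, fun p hp => not_not.1 (h2 p hp)⟩
  · rintro ⟨h1, h2⟩
    exact ⟨h1, fun p hp => not_not.2 (h2 p hp)⟩

theorem Bm_dual (J : X) : Bm D.dual (toDual J) = Bp D J := by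
  ext p
  constructor
  · rintro ⟨K, hK, hp⟩
    refine ⟨ofDual K, (Rp_dual (ofDual K) J).1 hK, ?_⟩
    have := Am_dual (D := D) (ofDual K)
    rw [← this]; exact hp
  · rintro ⟨K, hK, hp⟩
    refine ⟨toDual K, (Rp_dual K J).2 hK, ?_⟩
    rw [Am_dual]; exact hp

theorem Bp_dual (J : X) : Bp D.dual (toDual J) = Bm D J := by
  ext p
  constructor
  · rintro ⟨K, hK, hp⟩
    refine ⟨ofDual K, (Rm_dual (ofDual K) J).1 hK, ?_⟩
    have := Ap_dual (D := D) (ofDual K)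
    rw [← this]; exact hp
  · rintro ⟨K, hK, hp⟩
    refine ⟨toDual K, (Rm_dual K J).2 hK, ?_⟩
    rw [Ap_dual]; exact hp

end dual

section claims

variable [Lattice X] {D : Dat.{u, v, w, z} P X} (h : D.Good)
include h

theorem Dat.Good.ext {x y : X} (hxy : ∀ p, D.mem p x ↔ D.mem p y) : x = y :=
  le_antisymm ((h.le_iff x y).2 fun p hp => (hxy p).1 hp)
    ((h.le_iff y x).2 fun p hp => (hxy p).2 hp)

theorem Dat.Good.mono {x y : X} (hxy : x ≤ y) {p : P} (hp : D.mem p x) : D.mem p y :=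
  (h.le_iff x y).1 hxy p hp

theorem Dat.Good.exists_of_not_le {x y : X} (hxy : ¬ x ≤ y) : ∃ p, D.mem p x ∧ ¬ D.mem p y := by
  rw [h.le_iff] at hxy
  push Not at hxy
  exact hxy

/-- a minimal element for `e` exists -/
theorem Dat.Good.exists_wall {M I : X} (hMI : ¬ I ≤ M) : ∃ p, IsWall D M I p := by
  obtain ⟨p, hp, hp'⟩ := h.exists_of_not_le hMI
  let S : Set P := {p | D.mem p I ∧ ¬ D.mem p M}
  have hS : (D.e '' S).Nonempty := ⟨_, p, ⟨hp, hp'⟩, rfl⟩
  obtain ⟨q, hq, hqe⟩ := csInf_mem hS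
  refine ⟨q, hq.1, hq.2, fun r hr hr' => ?_⟩
  rw [hqe]
  exact csInf_le' ⟨r, ⟨hr, hr'⟩, rfl⟩

/-- rank attains its maximum on a nonempty set closed under ultralimits -/
theorem Dat.Good.exists_max {S : Set X} (hS : S.Nonempty)
    (hcl : ∀ U : Ultrafilter X, S ∈ U → ∀ L, (∀ p, D.mem p L ↔ ∀ᶠ x in (U : Filter X), D.mem p x) →
      L ∈ S) : ∃ M ∈ S, ∀ K ∈ S, D.rho K ≤ D.rho M := by
  by_contra hcon
  push Not at hcon
  -- filter generated by the tails
  obtain ⟨s0, hs0⟩ := hS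
  have : Nonempty S := ⟨⟨s0, hs0⟩⟩
  let T : S → Set X := fun K => {K' ∈ S | D.rho K.1 ≤ D.rho K'}
  have hdir : Directed (· ≥ ·) fun K : S => 𝓟 (T K) := by
    intro a b
    rcases le_total (D.rho a.1) (D.rho b.1) with hab | hab
    · exact ⟨b, principal_mono.2 fun x hx => ⟨hx.1, hab.trans hx.2⟩, le_refl _⟩
    · exact ⟨a, le_refl _, principal_mono.2 fun x hx => ⟨hx.1, hab.trans hx.2⟩⟩
  have hne : (⨅ K : S, 𝓟 (T K)).NeBot := by
    refine iInf_neBot_of_directed' hdir fun K => ?_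
    rw [principal_neBot_iff]
    exact ⟨K.1, K.2, le_refl _⟩
  let U : Ultrafilter X := Ultrafilter.of (⨅ K : S, 𝓟 (T K))
  have hU : ∀ K : S, ∀ᶠ x in (U : Filter X), x ∈ T K := by
    intro K
    have : (U : Filter X) ≤ 𝓟 (T K) := (Ultrafilter.of_le _).trans (iInf_le _ K)
    exact this (mem_principal_self _)
  obtain ⟨L, hL⟩ := h.lim U
  have hSU : S ∈ U := (hU ⟨s0, hs0⟩).mono fun x hx => hx.1
  have hLS : L ∈ S := hcl U hSU L hL
  obtain ⟨F, hF⟩ := h.peak L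
  have hagree : ∀ᶠ x in (U : Filter X), ∀ p ∈ F, (D.mem p x ↔ D.mem p L) := by
    rw [Filter.eventually_all_finset]
    intro p _
    by_cases hp : D.mem p L
    · have := (hL p).1 hp
      filter_upwards [this] with x hx
      tauto
    · have h2 : ¬ ∀ᶠ x in (U : Filter X), D.mem p x := fun hh => hp ((hL p).2 hh)
      rw [← Ultrafilter.eventually_not] at h2
      filter_upwards [h2] with x hx
      tauto
  obtain ⟨M', hM', hlt⟩ := hcon L hLS
  have h3 := hU ⟨M', hM'⟩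
  obtain ⟨x, hx1, hx2⟩ := (hagree.and h3).exists
  have h4 : D.rho x ≤ D.rho L := by
    by_cases hxe : x = L
    · rw [hxe]
    · exact (hF x hx1 hxe).le
  exact absurd (hx2.2.trans h4) (not_le.2 hlt)

/-- agreement with the ultralimit on a finite set -/
theorem Dat.Good.agree {ι : Type*} (U : Ultrafilter ι) (K : ι → X) (L : X)
    (hL : ∀ p, D.mem p L ↔ ∀ᶠ i in (U : Filter ι), D.mem p (K i)) (F : Finset P) :
    ∀ᶠ i in (U : Filter ι), ∀ p ∈ F, (D.mem p (K i) ↔ D.mem p L) := by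
  rw [Filter.eventually_all_finset]
  intro p _
  by_cases hp : D.mem p L
  · have := (hL p).1 hp
    filter_upwards [this] with x hx
    tauto
  · have h2 : ¬ ∀ᶠ x in (U : Filter ι), D.mem p (K x) := fun hh => hp ((hL p).2 hh)
    rw [← Ultrafilter.eventually_not] at h2
    filter_upwards [h2] with x hx
    tauto

theorem Dat.Good.lim' {ι : Type*} (U : Ultrafilter ι) (K : ι → X) :
    ∃ L, ∀ p, D.mem p L ↔ ∀ᶠ i in (U : Filter ι), D.mem p (K i) := by
  obtain ⟨L, hL⟩ := h.lim (U.map K)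
  refine ⟨L, fun p => ?_⟩
  rw [hL p, Ultrafilter.coe_map, Filter.eventually_map]

/-- Claim 1. -/
theorem claim1 {I J : X} (hR : Rm D I J) (hne : J ≠ I) : D.rho J < D.rho I := by
  by_contra hcon
  push Not at hcon
  have hJI : J < I := lt_of_le_of_ne hR.1 hne
  let S : Set X := {K | J ≤ K ∧ K < I ∧ D.rho I ≤ D.rho K}
  have hcl : ∀ U : Ultrafilter X, S ∈ U → ∀ L,
      (∀ p, D.mem p L ↔ ∀ᶠ x in (U : Filter X), D.mem p x) → L ∈ S := by
    intro U hSU L hL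
    have hSU' : ∀ᶠ x in (U : Filter X), x ∈ S := hSU
    have h1 : J ≤ L := by
      rw [h.le_iff]
      intro p hp
      rw [hL p]
      filter_upwards [hSU'] with x hx
      exact h.mono hx.1 hp
    have h2 : L ≤ I := by
      rw [h.le_iff]
      intro p hp
      rw [hL p] at hp
      obtain ⟨x, hx1, hx2⟩ := (hp.and hSU').exists
      exact h.mono hx2.2.1.le hx1
    have h3 : L ≠ I := by
      intro hLI
      obtain ⟨F, hF⟩ := h.peak I
      have ha := h.agree U (fun x => x) L hL F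
      obtain ⟨x, hx1, hx2⟩ := (ha.and hSU').exists
      rw [hLI] at hx1
      have := hF x hx1 hx2.2.1.ne
      exact absurd hx2.2.2 (not_le.2 this)
    have h4 : D.rho I ≤ D.rho L := by
      obtain ⟨F, hF⟩ := h.peak L
      have ha := h.agree U (fun x => x) L hL F
      obtain ⟨x, hx1, hx2⟩ := (ha.and hSU').exists
      by_cases hxL : x = L
      · rw [← hxL]; exact hx2.2.2
      · exact hx2.2.2.trans (hF x hx1 hxL).le
    exact ⟨h1, lt_of_le_of_ne h2 h3, h4⟩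
  obtain ⟨M, hM, hmax⟩ := h.exists_max (S := S) ⟨J, le_refl _, hJI, hcon⟩ hcl
  have hK : KSet D I M := by
    refine ⟨hM.2.1, hM.2.2, fun K hMK hKI => ?_⟩
    rcases le_or_gt (D.rho I) (D.rho K) with h5 | h5
    · exact hmax K ⟨hM.1.trans hMK.le, hKI, h5⟩
    · exact h5.le.trans hM.2.2
  obtain ⟨p, hp⟩ := h.exists_wall (M := M) (I := I) (not_le_of_gt hM.2.1)
  have hpJ := hR.2 p ⟨M, hK, hp⟩
  exact hp.2.1 (h.mono hM.1 hpJ)

omit h in
theorem wall_restrict {M I J M' : X} {p : P} (hp : IsWall D M I p)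
    (hJ : ∀ q, D.mem q J → D.mem q I) (hM : ∀ q, D.mem q J → (D.mem q M' ↔ D.mem q M))
    (hpJ : D.mem p J) : IsWall D M' J p := by
  refine ⟨hpJ, fun hh => hp.2.1 ((hM p hpJ).1 hh), fun q hq hq' => ?_⟩
  exact hp.2.2 q (hJ q hq) fun hh => hq' ((hM q hq).2 hh)

/-- key exchange step: restriction of a visible bad point -/
theorem kset_restrict {I J M : X} (hJI : J ≤ I) (hM : KSet D I M) (hJM : ¬ J ≤ M) :
    KSet D J (M ⊓ J) := by
  have key : ∀ K', K' ≤ J → ¬ K' ≤ M → D.rho (M ⊔ K') ≤ D.rho M := by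
    intro K' hK' hKM
    have h1 : M < M ⊔ K' := lt_of_le_of_ne le_sup_left fun hh => hKM (by rw [hh]; exact le_sup_right)
    have h2 : M ⊔ K' ≤ I := sup_le hM.1.le (hK'.trans hJI)
    rcases eq_or_lt_of_le h2 with h3 | h3
    · rw [h3]; exact hM.2.1
    · exact hM.2.2 _ h1 h3
  refine ⟨lt_of_le_of_ne inf_le_right fun hh => hJM ?_, ?_, ?_⟩
  · rw [← hh]; exact inf_le_left
  · exact h.sup_le M J (key J le_rfl hJM)
  · intro K' hlt hKJ
    have hKM : ¬ K' ≤ M := fun hh => absurd (le_inf hh hKJ.le) (not_le_of_gt hlt)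
    have h1 := h.sup_le M K' (key K' hKJ.le hKM)
    have h2 : M ⊓ K' = M ⊓ J := by
      apply le_antisymm
      · exact inf_le_inf_left _ hKJ.le
      · exact le_inf inf_le_left hlt.le
    rw [h2] at h1
    exact h1

/-- Claim 2. -/
theorem claim2 {I J L : X} (hIJ : Rm D I J) (hJL : Rm D J L) : Rm D I L := by
  refine ⟨hJL.1.trans hIJ.1, ?_⟩
  rintro p ⟨M, hM, hp⟩
  have hpJ : D.mem p J := hIJ.2 p ⟨M, hM, hp⟩
  have hJM : ¬ J ≤ M := fun hh => hp.2.1 (h.mono hh hpJ)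
  refine hJL.2 p ⟨M ⊓ J, kset_restrict h hIJ.1 hM hJM, ?_⟩
  refine wall_restrict hp (fun q hq => h.mono hIJ.1 hq) (fun q hq => ?_) hpJ
  rw [h.mem_inf]
  exact ⟨fun hh => hh.1, fun hh => ⟨hh, hq⟩⟩

/-- Claim 3. -/
theorem claim3 {I J : X} (C : X) (hIJ : Rm D I J) : Rm D (I ⊔ C) (J ⊔ C) := by
  refine ⟨sup_le_sup_right hIJ.1 C, ?_⟩
  rintro p ⟨M, hM, hp⟩
  rw [h.mem_sup]
  by_cases hpC : D.mem p C
  · exact Or.inr hpC
  left
  have hpI : D.mem p I := ((h.mem_sup p I C).1 hp.1).resolve_right hpC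
  have hIM : ¬ I ≤ M := fun hh => hp.2.1 (h.mono hh hpI)
  refine hIJ.2 p ⟨M ⊓ I, kset_restrict h le_sup_left hM hIM, ?_⟩
  refine wall_restrict hp (fun q hq => h.mono le_sup_left hq) (fun q hq => ?_) hpI
  rw [h.mem_inf]
  exact ⟨fun hh => hh.1, fun hh => ⟨hh, hq⟩⟩

theorem claim1' {I J : X} (hR : Rp D I J) (hne : J ≠ I) : D.rho J < D.rho I :=
  claim1 h.dual ((Rm_dual I J).2 hR) hne

theorem claim2' {I J L : X} (hIJ : Rp D I J) (hJL : Rp D J L) : Rp D I L :=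
  (Rm_dual I L).1 (claim2 h.dual ((Rm_dual I J).2 hIJ) ((Rm_dual J L).2 hJL))

theorem claim3' {I J : X} (C : X) (hIJ : Rp D I J) : Rp D (I ⊓ C) (J ⊓ C) :=
  (Rm_dual (I ⊓ C) (J ⊓ C)).1 (claim3 h.dual (toDual C) ((Rm_dual I J).2 hIJ))

omit h in
theorem Rm_self (I : X) : Rm D I I := ⟨le_rfl, fun _ hp => by obtain ⟨M, _, hp⟩ := hp; exact hp.1⟩

omit h in
theorem Rp_self (I : X) : Rp D I I :=
  ⟨le_rfl, fun _ hp => by obtain ⟨M, _, hp⟩ := hp; exact hp.2.1⟩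

/-- one half of transitivity -/
theorem trans_half {I J L : X} (h1 : ∀ p ∈ Bm D I, D.mem p J) (h2 : ∀ p ∈ Bp D I, ¬ D.mem p J)
    (h3 : ∀ p ∈ Bm D J, D.mem p L) : ∀ p ∈ Bm D I, D.mem p L := by
  rintro p ⟨K, hK, hp⟩
  have s1 : Rm D K (J ⊓ K) := by
    refine ⟨inf_le_right, fun q hq => ?_⟩
    rw [h.mem_inf]
    refine ⟨h1 q ⟨K, hK, hq⟩, ?_⟩
    obtain ⟨M, _, hq⟩ := hq
    exact hq.1
  have s2 : Rp D I (J ⊔ I) := by
    refine ⟨le_sup_right, fun q hq hh => ?_⟩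
    rw [h.mem_sup] at hh
    rcases hh with hh | hh
    · exact h2 q ⟨I, Rm_self I, hq⟩ hh
    · exact (Rp_self I).2 q hq hh
  have s3 : Rp D K (J ⊔ I) := claim2' h hK s2
  have s4 : Rp D K (J ⊔ K) :=
    ⟨le_sup_right, fun q hq hh => s3.2 q hq (h.mono (sup_le_sup_left hK.1 J) hh)⟩
  have s5 : Rp D (K ⊓ J) J := by
    have := claim3' h J s4
    have h6 : (J ⊔ K) ⊓ J = J := inf_eq_right.2 le_sup_left
    rw [h6] at this
    exact this
  have s6 : Rm D (J ⊓ K) (L ⊓ (J ⊓ K)) := by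
    refine ⟨inf_le_right, fun q hq => ?_⟩
    rw [h.mem_inf]
    refine ⟨h3 q ⟨K ⊓ J, s5, ?_⟩, ?_⟩
    · rw [inf_comm]; exact hq
    · obtain ⟨M, _, hq⟩ := hq
      exact hq.1
  have s7 := claim2 h s1 s6
  exact h.mono inf_le_left (s7.2 p hp)

theorem trans_half' {I J L : X} (h1 : ∀ p ∈ Bm D I, D.mem p J) (h2 : ∀ p ∈ Bp D I, ¬ D.mem p J)
    (h3 : ∀ p ∈ Bp D J, ¬ D.mem p L) : ∀ p ∈ Bp D I, ¬ D.mem p L := by
  have := trans_half h.dual (I := toDual I) (J := toDual J) (L := toDual L)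
    (by rw [Bm_dual]; exact h2) (by rw [Bp_dual]; exact fun p hp => not_not.2 (h1 p hp))
    (by rw [Bm_dual]; exact h3)
  rw [Bm_dual] at this
  exact this

theorem canonical {I J : X} (h1 : ∀ p ∈ Bm D I, D.mem p J) (h2 : ∀ p ∈ Bp D I, ¬ D.mem p J)
    (hne : J ≠ I) : D.rho J < D.rho I := by
  have s1 : Rm D I (J ⊓ I) := by
    refine ⟨inf_le_right, fun q hq => ?_⟩
    rw [h.mem_inf]
    exact ⟨h1 q ⟨I, Rp_self I, hq⟩, (Rm_self I).2 q hq⟩
  have s2 : Rp D I (J ⊔ I) := by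
    refine ⟨le_sup_right, fun q hq hh => ?_⟩
    rw [h.mem_sup] at hh
    rcases hh with hh | hh
    · exact h2 q ⟨I, Rm_self I, hq⟩ hh
    · exact (Rp_self I).2 q hq hh
  have s3 : D.rho (J ⊔ I) ≤ D.rho I := by
    by_cases hh : J ⊔ I = I
    · rw [hh]
    · exact (claim1' h s2 hh).le
  by_cases hIJ : I ≤ J
  · have h4 : J ⊔ I = J := sup_eq_left.2 hIJ
    rw [h4] at s2
    exact claim1' h s2 hne
  · have h4 : J ⊓ I ≠ I := fun hh => hIJ (by rw [← hh]; exact inf_le_left)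
    have h5 := claim1 h s1 h4
    have h6 : D.rho (I ⊓ J) < D.rho I := by rw [inf_comm]; exact h5
    have h7 := h.inf_lt I J h6
    rw [sup_comm] at h7
    exact lt_of_lt_of_le h7 s3

/-- no infinite strictly increasing sequence of walls -/
theorem no_incr {J : X} (r : P → P → Prop) (hr : ∀ p q x, r p q → D.mem q x → D.mem p x)
    (b : ℕ → P) (hb : ∀ m n, m < n → r (b m) (b n) ∧ b m ≠ b n) (hbJ : ∀ n, b n ∈ Bm D J) :
    False := by
  choose K hK hbK using hbJ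
  choose M hM hw using hbK
  let U : Ultrafilter ℕ := Filter.hyperfilter ℕ
  have hcof : ∀ m : ℕ, ∀ᶠ n in (U : Filter ℕ), m < n := by
    intro m
    have : (U : Filter ℕ) ≤ Filter.atTop := by
      have := Filter.hyperfilter_le_cofinite (α := ℕ)
      rw [Nat.cofinite_eq_atTop] at this
      exact this
    exact this (Filter.eventually_gt_atTop m)
  obtain ⟨K0, hK0⟩ := h.lim' U K
  obtain ⟨M0, hM0⟩ := h.lim' U M
  have hK0J : K0 ≤ J := by
    rw [h.le_iff]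
    intro p hp
    obtain ⟨n, hn⟩ := ((hK0 p).1 hp).exists
    exact h.mono (hK n).1 hn
  have hM0K0 : M0 ≤ K0 := by
    rw [h.le_iff]
    intro p hp
    rw [hK0 p]
    filter_upwards [(hM0 p).1 hp] with n hn
    exact h.mono (hM n).1.le hn
  have f1 : ∀ m, D.mem (b m) K0 := by
    intro m
    rw [hK0]
    filter_upwards [hcof m] with n hn
    exact hr _ _ _ (hb m n hn).1 (hw n).1
  have f2 : ∀ᶠ n in (U : Filter ℕ), K0 ≤ K n := by
    obtain ⟨F, hF⟩ := h.peak K0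
    filter_upwards [h.agree U K K0 hK0 F] with n hn
    by_contra hcon
    have h1 : Rp D (K n) (K n ⊔ K0) :=
      ⟨le_sup_left, fun q hq hh => (hK n).2 q hq (h.mono (sup_le (hK n).1 hK0J) hh)⟩
    have h2 : K n ⊔ K0 ≠ K n := fun hh => hcon (by rw [← hh]; exact le_sup_right)
    have h3 := claim1' h h1 h2
    have h4 := h.sup_lt _ _ h3
    have h5 : D.rho (K n ⊓ K0) ≤ D.rho K0 := by
      by_cases hh : K n ⊓ K0 = K0
      · rw [hh]
      · refine (hF _ (fun p hp => ?_) hh).le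
        rw [h.mem_inf, hn p hp]
        tauto
    exact absurd h4 (not_lt.2 h5)
  by_cases hMK : M0 = K0
  · obtain ⟨F, hF⟩ := h.peak K0
    rw [hMK] at hM0
    obtain ⟨n, hn1, hn2⟩ := ((h.agree U M K0 hM0 F).and f2).exists
    have hnle : ¬ K0 ≤ M n := fun hh => (hw n).2.1 (h.mono hh (f1 n))
    have h1 : K0 ⊓ M n ≠ K0 := fun hh => hnle (by rw [← hh]; exact inf_le_right)
    have h2 : D.rho (K0 ⊓ M n) < D.rho K0 := by
      refine hF _ (fun p hp => ?_) h1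
      rw [h.mem_inf, hn1 p hp]
      tauto
    have h3 := h.inf_lt _ _ h2
    have h4 : M n < K0 ⊔ M n := lt_of_le_of_ne le_sup_right fun hh => hnle (by
      rw [hh]; exact le_sup_left)
    have h5 : K0 ⊔ M n ≤ K n := sup_le hn2 (hM n).1.le
    rcases eq_or_lt_of_le h5 with h6 | h6
    · rw [h6] at h3
      exact absurd (hM n).2.1 (not_le.2 h3)
    · exact absurd ((hM n).2.2 _ h4 h6) (not_le.2 h3)
  · have hnle : ¬ K0 ≤ M0 := fun hh => hMK (le_antisymm hM0K0 hh)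
    obtain ⟨p, hp⟩ := h.exists_wall hnle
    obtain ⟨F, hF⟩ := h.peak M0
    have hpM : ∀ᶠ n in (U : Filter ℕ), ¬ D.mem p (M n) := by
      rw [Ultrafilter.eventually_not]
      exact fun hh => hp.2.1 ((hM0 p).2 hh)
    have hall : ∀ᶠ n in (U : Filter ℕ), b n = p := by
      filter_upwards [h.agree U M M0 hM0 F, f2, hpM] with n hn1 hn2 hn3
      have hpK : D.mem p (K n) := h.mono hn2 hp.1
      have h1 : D.e (b n) ≤ D.e p := (hw n).2.2 p hpK hn3
      have hle : M0 ≤ M n := by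
        by_contra hcon
        have h2 : M n < M n ⊔ M0 := lt_of_le_of_ne le_sup_left fun hh => hcon (by
          rw [hh]; exact le_sup_right)
        have h3 : M n ⊔ M0 ≤ K n := sup_le (hM n).1.le (hM0K0.trans hn2)
        have h4 : M n ⊔ M0 ≠ K n := by
          intro hh
          have : D.mem p (M n ⊔ M0) := by rw [hh]; exact hpK
          rw [h.mem_sup] at this
          exact this.elim hn3 hp.2.1
        have h5 := (hM n).2.2 _ h2 (lt_of_le_of_ne h3 h4)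
        have h6 := h.sup_le _ _ h5
        have h7 : M n ⊓ M0 ≠ M0 := fun hh => hcon (by rw [← hh]; exact inf_le_left)
        have h8 : D.rho (M n ⊓ M0) < D.rho M0 := by
          refine hF _ (fun q hq => ?_) h7
          rw [h.mem_inf, hn1 q hq]
          tauto
        exact absurd h6 (not_le.2 h8)
      have h2 : ¬ D.mem (b n) M0 := fun hh => (hw n).2.1 (h.mono hle hh)
      have h3 : D.e p ≤ D.e (b n) := hp.2.2 _ (f1 n) h2
      exact h.e_inj (le_antisymm h1 h3)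
    obtain ⟨m, hm⟩ := hall.exists
    obtain ⟨n, hn1, hn2⟩ := (hall.and (hcof m)).exists
    exact (hb m n hn2).2 (hm.trans hn1.symm)

theorem no_incr' {J : X} (r : P → P → Prop) (hr : ∀ p q x, r p q → D.mem p x → D.mem q x)
    (b : ℕ → P) (hb : ∀ m n, m < n → r (b m) (b n) ∧ b m ≠ b n) (hbJ : ∀ n, b n ∈ Bp D J) :
    False := by
  refine no_incr h.dual (J := toDual J) r (fun p q x hpq hq hp => hq (hr p q _ hpq hp)) b hb ?_
  intro n
  rw [Bm_dual]
  exact hbJ n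

end claims

end Pool.Agent.H74.PosetAlg
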